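import Pool.Agent.L0h45.AV.Stm

/-!
# The Chinese remainder theorem for tuples
-/

set_option autoImplicit false

open Finset

namespace Pool.Agent.L0h45.AV

open Pool.Agent.N874.PP (Tup)
open Pool.Agent.L0h45.LR (Cgr)

theorem crt_ex (m n : ℤ) (hm : 0 < m) (hn : 0 < n) (hc : IsCoprime m n) (a b : ℤ)
    (ha : 0 ≤ a) (ha' : a < m) (hb : 0 ≤ b) (hb' : b < n) :
    ∃ z, 0 ≤ z ∧ z < m * n ∧ z % m = a ∧ z % n = b := by
  obtain ⟨u, v, h⟩ := hc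
  refine ⟨(a * (v * n) + b * (u * m)) % (m * n), Int.emod_nonneg _ (by positivity),
    Int.emod_lt_of_pos _ (by positivity), ?_, ?_⟩
  · rw [Int.emod_emod_of_dvd _ (dvd_mul_right m n)]
    have h1 : a * (v * n) + b * (u * m) = a + m * (u * (b - a)) := by
      linear_combination a * h
    rw [h1, Int.add_mul_emod_self_left, Int.emod_eq_of_lt ha ha']
  · rw [Int.emod_emod_of_dvd _ (dvd_mul_left n m)]
    have h1 : a * (v * n) + b * (u * m) = b + n * (v * (a - b)) := by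
      linear_combination b * h
    rw [h1, Int.add_mul_emod_self_left, Int.emod_eq_of_lt hb hb']

theorem crt_uniq (m n : ℤ) (hc : IsCoprime m n) (z z' : ℤ)
    (h0 : 0 ≤ z) (h1 : z < m * n) (h0' : 0 ≤ z') (h1' : z' < m * n) (hm : z % m = z' % m)
    (hn : z % n = z' % n) : z = z' := by
  have h2 : m ∣ z - z' := Int.ModEq.dvd (Eq.symm hm : z' % m = z % m)
  have h3 : n ∣ z - z' := Int.ModEq.dvd (Eq.symm hn : z' % n = z % n)
  have h4 : m * n ∣ z - z' := hc.mul_dvd h2 h3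
  have h5 : |z - z'| < m * n := by
    rw [abs_lt]
    constructor <;> linarith
  have := Int.eq_zero_of_abs_lt_dvd h4 h5
  linarith

/-- the remainders of the coordinates -/
def rdT (k : ℤ) (B : Tup ℤ) : Tup ℤ := ⟨B.x % k, B.y % k, B.c % k, B.z % k, B.w % k⟩

theorem cgr_rdT (m : ℕ) (B B' : Tup ℤ) (h : rdT m B = B') : Cgr m B B' := by
  subst h
  have h1 : ∀ x : ℤ, (m : ℤ) ∣ x % m - x := fun x =>
    Int.ModEq.dvd (Int.mod_modEq x m).symm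
  exact ⟨h1 _, h1 _, h1 _, h1 _, h1 _⟩

theorem t_CRT : S_CRT := by
  intro m n P Q hm hn hc hP hQ
  have hm' : (0 : ℤ) < m := by exact_mod_cast hm
  have hn' : (0 : ℤ) < n := by exact_mod_cast hn
  have hc' : IsCoprime (m : ℤ) (n : ℤ) := Nat.isCoprime_iff_coprime.mpr hc
  rw [← Set.ncard_prod]
  have key : {B | B ∈ Bo m ∧ P B} ×ˢ {B | B ∈ Bo n ∧ Q B} =
      (fun B : Tup ℤ => (rdT m B, rdT n B)) '' {B | B ∈ Bo (m * n) ∧ P B ∧ Q B} := by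
    ext ⟨B₁, B₂⟩
    simp only [Set.mem_prod, Set.mem_setOf_eq, Set.mem_image, Prod.mk.injEq]
    constructor
    · rintro ⟨⟨hB₁, hP₁⟩, hB₂, hQ₂⟩
      obtain ⟨a1, a2, a3, a4, a5, a6, a7, a8, a9, a10⟩ := hB₁
      obtain ⟨b1, b2, b3, b4, b5, b6, b7, b8, b9, b10⟩ := hB₂
      obtain ⟨x, x1, x2, x3, x4⟩ := crt_ex m n hm' hn' hc' _ _ a1 a2 b1 b2
      obtain ⟨y, y1, y2, y3, y4⟩ := crt_ex m n hm' hn' hc' _ _ a3 a4 b3 b4
      obtain ⟨c, c1, c2, c3, c4⟩ := crt_ex m n hm' hn' hc' _ _ a5 a6 b5 b6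
      obtain ⟨z, z1, z2, z3, z4⟩ := crt_ex m n hm' hn' hc' _ _ a7 a8 b7 b8
      obtain ⟨w, w1, w2, w3, w4⟩ := crt_ex m n hm' hn' hc' _ _ a9 a10 b9 b10
      have e1 : rdT m ⟨x, y, c, z, w⟩ = B₁ := by
        simp only [rdT, x3, y3, c3, z3, w3]
      have e2 : rdT n ⟨x, y, c, z, w⟩ = B₂ := by
        simp only [rdT, x4, y4, c4, z4, w4]
      refine ⟨⟨x, y, c, z, w⟩, ⟨?_, ?_, ?_⟩, e1, e2⟩
      · simp only [Bo, Set.mem_setOf_eq, Nat.cast_mul]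
        exact ⟨x1, x2, y1, y2, c1, c2, z1, z2, w1, w2⟩
      · exact (hP _ _ (cgr_rdT m _ _ e1)).mpr hP₁
      · exact (hQ _ _ (cgr_rdT n _ _ e2)).mpr hQ₂
    · rintro ⟨B, ⟨hB, hPB, hQB⟩, e1, e2⟩
      have h1 : ∀ (k : ℕ), (0 : ℤ) < k → rdT k B ∈ Bo k := by
        intro k hk
        simp only [rdT, Bo, Set.mem_setOf_eq]
        exact ⟨Int.emod_nonneg _ hk.ne', Int.emod_lt_of_pos _ hk,
          Int.emod_nonneg _ hk.ne', Int.emod_lt_of_pos _ hk,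
          Int.emod_nonneg _ hk.ne', Int.emod_lt_of_pos _ hk,
          Int.emod_nonneg _ hk.ne', Int.emod_lt_of_pos _ hk,
          Int.emod_nonneg _ hk.ne', Int.emod_lt_of_pos _ hk⟩
      refine ⟨⟨?_, (hP _ _ (cgr_rdT m _ _ e1)).mp hPB⟩, ?_, (hQ _ _ (cgr_rdT n _ _ e2)).mp hQB⟩
      · rw [← e1]
        exact h1 m hm'
      · rw [← e2]
        exact h1 n hn'
  rw [key]
  refine (Set.ncard_image_of_injOn ?_).symm
  rintro B ⟨hB, -, -⟩ B' ⟨hB', -, -⟩ h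
  simp only [Prod.mk.injEq, rdT, Tup.mk.injEq] at h
  obtain ⟨⟨x1, y1, c1, z1, w1⟩, x2, y2, c2, z2, w2⟩ := h
  simp only [Bo, Set.mem_setOf_eq, Nat.cast_mul] at hB hB'
  obtain ⟨a1, a2, a3, a4, a5, a6, a7, a8, a9, a10⟩ := hB
  obtain ⟨b1, b2, b3, b4, b5, b6, b7, b8, b9, b10⟩ := hB'
  ext
  · exact crt_uniq m n hc' _ _ a1 a2 b1 b2 x1 x2
  · exact crt_uniq m n hc' _ _ a3 a4 b3 b4 y1 y2
  · exact crt_uniq m n hc' _ _ a5 a6 b5 b6 c1 c2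
  · exact crt_uniq m n hc' _ _ a7 a8 b7 b8 z1 z2
  · exact crt_uniq m n hc' _ _ a9 a10 b9 b10 w1 w2

end Pool.Agent.L0h45.AV
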