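import Pool.Agent.L0h45.AV.Stm
import Pool.Agent.N922.PQ.Stm2

/-!
# Project AV (helper45), second part: the average size of the 2-Selmer groups is at most `3`

Statements of the modules. `Pt`, `act`, `rs`, `IsCoc`, `LocTriv`, `Comp`, `Sep` are in `TH115/GD/Defs.lean`, `sW`, `IsBeta`, `Rt`, `sg` in
`N874/PP/Gal.lean`, `PLoc`, `Lies`, `S_GLR`, `S_LOC1M` in `N874/PM/Stm.lean`; `Loc2`, `PL2`, `Ov` in `N922/PQ/Lat.lean`; the proofs of the old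
statements are listed in `N922/PQ/Final.lean`.
-/

set_option autoImplicit false
set_option linter.all false

open Polynomial IsDedekindDomain WeierstrassCurve WeierstrassCurve.Affine NumberField
open Pool.Agent.TH115.GD
open scoped Classical IntermediateField

namespace Pool.Agent.L0h45.AV

open Pool.Agent.N874.PP (Tup chA chB gq tau Ev sW IsBeta Rt)
open Pool.Agent.N874.PM (PLoc Lies)
open Pool.Agent.N922.PQ (dsc IsCub JJ Ov Loc2 PL2)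
open Pool.Agent.L0h45.AR (crv)

/-- the 2-Selmer cocycles of `y² = x³ + a x + b` over `ℚ` -/
def SelZ (a b : ℤ) : Set ((Sep ℚ ≃ₐ[ℚ] Sep ℚ) → Pt (sW (a : ℚ) (b : ℚ)) (Sep ℚ)) :=
  {f | IsCoc (sW (a : ℚ) (b : ℚ)) f ∧ (∀ σ, (2 : ℕ) • f σ = 0) ∧
    ∀ v : HeightOneSpectrum ℤ, LocTriv (sW (a : ℚ) (b : ℚ)) (Comp ℤ ℚ v) (Sep (Comp ℤ ℚ v)) f}

/-- cohomologous -/
def Coh (a b : ℤ) (f g : (Sep ℚ ≃ₐ[ℚ] Sep ℚ) → Pt (sW (a : ℚ) (b : ℚ)) (Sep ℚ)) : Prop :=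
  ∃ T : Pt (sW (a : ℚ) (b : ℚ)) (Sep ℚ), (2 : ℕ) • T = 0 ∧
    ∀ σ, f σ - g σ = act (sW (a : ℚ) (b : ℚ)) (rs ℚ σ) T - T

/-- LO3: the local condition and even valuations where the discriminant is a unit; `3` need not be a unit -/
def S_LO3 : Prop := ∀ (M Ω R O : Type) [Field M] [Field Ω] [Algebra M Ω] [CommRing R]
  [IsDedekindDomain R] [Algebra R M] [IsFractionRing R M] [CommRing O] [IsDedekindDomain O]
  [Algebra O Ω] [IsFractionRing O Ω] (w : HeightOneSpectrum R) (𝔓 : HeightOneSpectrum O),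
  Lies (M := M) (Ω := Ω) w 𝔓 → ∀ (a b : M) (θ : Ω) (h : M[X]),
  θ ^ 3 + algebraMap M Ω a * θ + algebraMap M Ω b = 0 →
  w.valuation M a ≤ 1 → w.valuation M b ≤ 1 → w.valuation M (4 * a ^ 3 + 27 * b ^ 2) = 1 →
  PLoc (w.adicCompletion M) a b h → aeval θ h ≠ 0 → Ev 𝔓 (aeval θ h)

/-- SEV: the element of a Selmer cocycle has even valuations. From `S_GLR`, `S_LOC1M`, `S_LIE`, `S_P3`, `S_LO3`. -/
def S_SEV : Prop := ∀ (L O : Type) [Field L] [NumberField L] [CommRing O] [IsDedekindDomain O]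
  [Algebra O L] [IsFractionRing O L] [IsIntegralClosure O ℤ L] (a b : ℤ) (θ : L),
  IsCub a b θ → Squarefree (dsc a b) → Odd a → ∀ f ∈ SelZ a b, ∀ (β : Sep ℚ → Sep ℚ) (h : ℚ[X]),
  IsBeta (a : ℚ) (b : ℚ) f β → (∀ t : Sep ℚ, Rt (a : ℚ) (b : ℚ) t → aeval t h = β t ^ 2) →
  aeval θ h ≠ 0 → IsSquare (Algebra.norm ℚ (aeval θ h)) → ∀ 𝔓 : HeightOneSpectrum O, Ev 𝔓 (aeval θ h)

/-- SE2: the local condition at `2` of a Selmer cocycle. -/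
def S_SE2 : Prop := ∀ (L : Type) [Field L] [NumberField L] (a b : ℤ) (θ : L),
  IsCub a b θ → Odd a → Odd b → dsc a b ≠ 0 → ∀ f ∈ SelZ a b, ∀ (β : Sep ℚ → Sep ℚ) (h : ℚ[X]),
  IsBeta (a : ℚ) (b : ℚ) f β → (∀ t : Sep ℚ, Rt (a : ℚ) (b : ℚ) t → aeval t h = β t ^ 2) → Loc2 a b θ (aeval θ h)

/-- S8S: the condition at `2` on the tuple -/
def S_S8S : Prop := ∀ (L : Type) [Field L] [NumberField L] (a b : ℤ) (θ : L) (h : IsCub a b θ) (α : L) (B : Tup ℤ),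
  Odd a → Odd b → α ≠ 0 → Rel h α B → chA B = a → chB B = b → Loc2 a b θ α → Sol8 B

/-- SBM: products of the `β` -/
def S_SBM : Prop := ∀ (a b : ℤ) (f g : (Sep ℚ ≃ₐ[ℚ] Sep ℚ) → Pt (sW (a : ℚ) (b : ℚ)) (Sep ℚ)) (β γ : Sep ℚ → Sep ℚ),
  dsc a b ≠ 0 → (∀ σ, (2 : ℕ) • f σ = 0) → (∀ σ, (2 : ℕ) • g σ = 0) →
  IsBeta (a : ℚ) (b : ℚ) f β → IsBeta (a : ℚ) (b : ℚ) g γ →
  IsBeta (a : ℚ) (b : ℚ) (fun σ => f σ - g σ) (fun t => β t * γ t)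

/-- RNS: the Selmer group and the tuples -/
def S_RNS : Prop := ∀ a b : ℤ, 0 < a → Odd a → Squarefree (dsc a b) →
  ∀ U : Finset ((Sep ℚ ≃ₐ[ℚ] Sep ℚ) → Pt (sW (a : ℚ) (b : ℚ)) (Sep ℚ)), (∀ f ∈ U, f ∈ SelZ a b) →
  (∀ f ∈ U, ∀ g ∈ U, f ≠ g → ¬ Coh a b f g) → ∃ S : Finset (Tup ℤ), U.card ≤ S.card + 1 ∧
  ∀ B ∈ S, B.x ≠ 0 ∧ chA B = a ∧ chB B = b ∧ Red B ∧ Sol8 B

end Pool.Agent.L0h45.AV
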