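import Pool.Agent.L0h45.AV.Cor
import Pool.Agent.L0h45.AV.Stm2

/-!
# AV: the average size of the 2-Selmer groups
-/

set_option autoImplicit false
set_option linter.all false

open Finset Filter Topology
open Pool.Agent.TH115.GD
open scoped Classical

namespace Pool.Agent.L0h45.AV

open Pool.Agent.N874.PP (Tup chA chB gq tau Ev sW)
open Pool.Agent.N922.PQ (dsc IsCub JJ Ov)
open Pool.Agent.L0h45.LR (tn Bx Cgr)
open Pool.Agent.L0h45.AR (crv)

/-- the 2-Selmer group: classes of cocycles -/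
def Sl (a b : ℤ) : Type := Quot fun f g : SelZ a b => Coh a b f.1 g.1

/-- representatives of finitely many classes -/
theorem reps (a b : ℤ) (T : Finset (Sl a b)) :
    ∃ U : Finset ((Sep ℚ ≃ₐ[ℚ] Sep ℚ) → Pt (sW (a : ℚ) (b : ℚ)) (Sep ℚ)), U.card = T.card ∧ (∀ f ∈ U, f ∈ SelZ a b) ∧
      ∀ f ∈ U, ∀ g ∈ U, f ≠ g → ¬ Coh a b f g := by
  have hex : ∀ q : Sl a b, ∃ f : SelZ a b, Quot.mk _ f = q := fun q => Quot.exists_rep q
  choose r hr using hex
  have hinj : ∀ q q' : Sl a b, Coh a b (r q).1 (r q').1 → q = q' := by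
    intro q q' h
    rw [← hr q, ← hr q']
    exact Quot.sound h
  have h0 : ∀ q : Sl a b, Coh a b (r q).1 (r q).1 := by
    intro q
    refine ⟨0, smul_zero _, fun σ => ?_⟩
    rw [sub_self, map_zero, sub_zero]
  refine ⟨T.image fun q => (r q).1, ?_, ?_, ?_⟩
  · apply card_image_of_injective
    intro q q' h
    apply hinj q q'
    simp only at h
    rw [← h]
    exact h0 q
  · intro f hf
    rw [mem_image] at hf
    obtain ⟨q, -, rfl⟩ := hf
    exact (r q).2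
  · intro f hf g hg hne hc
    rw [mem_image] at hf hg
    obtain ⟨q, -, rfl⟩ := hf
    obtain ⟨q', -, rfl⟩ := hg
    apply hne
    rw [hinj q q' hc]

theorem finite_of_bound {α : Type*} {N : ℕ} (h : ∀ T : Finset α, T.card ≤ N) : Finite α := by
  by_contra hc
  rw [not_finite_iff_infinite] at hc
  obtain ⟨T, hT⟩ := Infinite.exists_subset_card_eq α (N + 1)
  have := h T
  omega

/-- **FINS** -/
theorem t_FINS (hRNS : S_RNS) (hMAI : S_MAI) (hLOC : S_LOC) (hCND : S_CND) (hEUL : S_EUL) (hDEN : S_DEN) :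
    ∀ a : ℤ, 0 < a → Odd a → ¬ (3 : ℤ) ∣ a → (∀ b : ℤ, Squarefree (dsc a b) → Finite (Sl a b)) ∧
      ∀ ε : ℝ, 0 < ε → ∃ Y₀ : ℕ, ∀ Y ≥ Y₀,
        ∑ b ∈ (Icc (-(Y : ℤ)) Y).filter (fun b => Squarefree (dsc a b)), (Nat.card (Sl a b) : ℝ) ≤
          (3 + ε) * (((Icc (-(Y : ℤ)) Y).filter (fun b => Squarefree (dsc a b))).card : ℝ) := by
  intro a ha ho h3
  have hfin : ∀ b : ℤ, Squarefree (dsc a b) → Finite (Sl a b) := by
    intro b hb
    obtain ⟨Y₀, hY₀⟩ := t_FINA hMAI hLOC hCND hEUL hDEN a ha ho h3 1 one_pos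
    obtain ⟨Y, hY⟩ : ∃ Y : ℕ, Y = Y₀ + b.natAbs := ⟨_, rfl⟩
    obtain ⟨F, hF⟩ : ∃ F : Finset ℤ, F = (Icc (-(Y : ℤ)) Y).filter (fun b => Squarefree (dsc a b)) := ⟨_, rfl⟩
    have hbF : b ∈ F := by
      rw [hF, mem_filter, mem_Icc]
      refine ⟨?_, hb⟩
      omega
    obtain ⟨N, hN⟩ := exists_nat_ge ((2 + 1) * (F.card : ℝ))
    apply finite_of_bound (N := N + 1)
    intro T
    obtain ⟨U, hUc, hU1, hU2⟩ := reps a b T
    obtain ⟨S, hS1, hS2⟩ := hRNS a b ha ho hb U hU1 hU2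
    have h1 := hY₀ Y (by omega) (fun b' => if b' = b then S else ∅) (by
      intro b' _ B hB
      by_cases he : b' = b
      · simp only [he, if_true] at hB ⊢
        exact hS2 B hB
      · simp only [he, if_false] at hB
        exact absurd hB (Finset.notMem_empty _))
    rw [← hF] at h1
    have h2 : (S.card : ℝ) ≤ ∑ b' ∈ F, (((if b' = b then S else ∅ : Finset (Tup ℤ)).card : ℕ) : ℝ) := by
      have := Finset.single_le_sum (f := fun b' => (((if b' = b then S else ∅ : Finset (Tup ℤ)).card : ℕ) : ℝ))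
        (fun i _ => Nat.cast_nonneg _) hbF
      simpa using this
    have h4 : (S.card : ℝ) ≤ N := h2.trans (h1.trans hN)
    have h5 : S.card ≤ N := by exact_mod_cast h4
    omega
  refine ⟨hfin, fun ε hε => ?_⟩
  obtain ⟨Y₀, hY₀⟩ := t_FINA hMAI hLOC hCND hEUL hDEN a ha ho h3 ε hε
  refine ⟨Y₀, fun Y hY => ?_⟩
  obtain ⟨F, hF⟩ : ∃ F : Finset ℤ, F = (Icc (-(Y : ℤ)) Y).filter (fun b => Squarefree (dsc a b)) := ⟨_, rfl⟩
  have hFm : ∀ b ∈ F, Squarefree (dsc a b) := by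
    intro b hb
    rw [hF, mem_filter] at hb
    exact hb.2
  have key : ∀ b : ℤ, b ∈ F → ∃ S : Finset (Tup ℤ), Nat.card (Sl a b) ≤ S.card + 1 ∧
      ∀ B ∈ S, B.x ≠ 0 ∧ chA B = a ∧ chB B = b ∧ Red B ∧ Sol8 B := by
    intro b hb
    haveI := hfin b (hFm b hb)
    haveI := Fintype.ofFinite (Sl a b)
    obtain ⟨U, hUc, hU1, hU2⟩ := reps a b Finset.univ
    obtain ⟨S, hS1, hS2⟩ := hRNS a b ha ho (hFm b hb) U hU1 hU2
    refine ⟨S, ?_, hS2⟩
    rw [Nat.card_eq_fintype_card, ← Finset.card_univ, ← hUc]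
    exact hS1
  choose! Sb hSb1 hSb2 using key
  have h1 := hY₀ Y hY Sb (by rw [← hF]; exact hSb2)
  rw [← hF] at h1 ⊢
  have h2 : ∑ b ∈ F, (Nat.card (Sl a b) : ℝ) ≤ ∑ b ∈ F, (((Sb b).card : ℝ) + 1) :=
    sum_le_sum fun b hb => by exact_mod_cast hSb1 b hb
  rw [sum_add_distrib, sum_const, nsmul_eq_mul, mul_one] at h2
  linarith

end Pool.Agent.L0h45.AV
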