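import Pool.Agent.L0h45.LR.Stm
import Pool.Agent.N922.PQ.Lat
import Pool.Agent.L0h45.AR.Stm

/-!
# Project AV (helper45): the average of `2 ^ rank` over the curves `y² = x³ + a x + b`, `a > 0` fixed, `4 a³ + 27 b²` squarefree,
# is at most `3`

Statements of the modules. `Tup`, `chA`, `chB`, `gq`, `tau`, `Ev` are in `N874/PP/Def.lean`; `dsc`, `IsCub`, `JJ`, `Ov` in
`N922/PQ/Def.lean` and `N922/PQ/Lat.lean`; `tn`, `Bx`, `Cgr`, `S_EQ`, `S_RHO`, `S_TRV`, `S_BX0`, `S_PELL` (all proved, see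
`L0h45/LR/Asm.lean`) in `L0h45/LR/Stm.lean`; `crv`, `cub`, `Alg`, `th` in `L0h45/AR/Stm.lean`.
-/

set_option autoImplicit false
set_option linter.all false

open Finset IsDedekindDomain NumberField MeasureTheory Filter Topology
open scoped Classical

namespace Pool.Agent.L0h45.AV

open Pool.Agent.N874.PP (Tup chA chB gq tau Ev)
open Pool.Agent.N922.PQ (dsc IsCub JJ Ov)
open Pool.Agent.L0h45.LR (tn Bx Cgr)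
open Pool.Agent.L0h45.AR (crv)

/-! ### Tuples -/

section tup

variable {R : Type} [CommRing R]

/-- the change of basis `e₁ ↦ -e₁`, `e₃ ↦ -e₃` -/
def rf (B : Tup R) : Tup R := ⟨B.x, -B.y, B.c, -B.z, B.w⟩

/-- the exchange of `e₁` and `e₃` -/
def sw (B : Tup R) : Tup R := ⟨B.w, B.z, B.c, B.y, B.x⟩

/-- the symmetric matrix -/
def mt (B : Tup R) : Matrix (Fin 3) (Fin 3) R := !![B.x, B.y, B.c; B.y, -2 * B.c, B.z; B.c, B.z, B.w]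

end tup

/-- the real tuple -/
def toR (B : Tup ℤ) : Tup ℝ := ⟨B.x, B.y, B.c, B.z, B.w⟩

/-- the homogeneous quartic form: `gh B u 1 = gq B u` -/
def gh (B : Tup ℤ) (s t : ℤ) : ℤ :=
  4 * B.x * s ^ 4 - 8 * B.y * s ^ 3 * t - 12 * B.c * s ^ 2 * t ^ 2 + 4 * B.z * s * t ^ 3 + B.w * t ^ 4

/-- The tuple whose quartic form is `v⁻² ((3θ + C) X⁴ + 2 S X³ Y + 6 θ X² Y² + 2 S X Y³ + (3θ - C) Y⁴)` with `X = s - p t`,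
`Y = v t`; this is `v⁻² (X² + Y²) (3θ (X² + Y²) + C (X² - Y²) + 2 S X Y)`; its zero in the upper half plane is `p + i v`. -/
noncomputable def Bp (p v θ C S : ℝ) : Tup ℝ :=
  ⟨(3 * θ + C) / (4 * v ^ 2), (2 * p * (3 * θ + C) - S * v) / (4 * v ^ 2),
   -(p ^ 2 * (3 * θ + C) - p * S * v + θ * v ^ 2) / (2 * v ^ 2),
   (-2 * p ^ 3 * (3 * θ + C) + 3 * p ^ 2 * S * v - 6 * p * θ * v ^ 2 + S * v ^ 3) / (2 * v ^ 2),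
   (p ^ 4 * (3 * θ + C) - 2 * p ^ 3 * S * v + 6 * p ^ 2 * θ * v ^ 2 - 2 * p * S * v ^ 3 + (3 * θ - C) * v ^ 4) / v ^ 2⟩

theorem chA_Bp (p v θ C S : ℝ) (hv : v ≠ 0) : chA (Bp p v θ C S) = (C ^ 2 + S ^ 2 - 12 * θ ^ 2) / 4 := by
  simp only [chA, Bp]
  field_simp
  ring

theorem chB_Bp (p v θ C S : ℝ) (hv : v ≠ 0) :
    chB (Bp p v θ C S) = -θ ^ 3 - (C ^ 2 + S ^ 2 - 12 * θ ^ 2) / 4 * θ := by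
  simp only [chB, Bp]
  field_simp
  ring

/-- the fundamental domain -/
def FD (p v : ℝ) : Prop := 0 ≤ p ∧ p ≤ 1 / 2 ∧ 0 < v ∧ 1 / 2 ≤ p ^ 2 + v ^ 2

/-- the zero is `p + i v` with `(p, v)` in the fundamental domain -/
def Rd (B : Tup ℤ) (v : ℝ) : Prop := ∃ p θ C S : ℝ, FD p v ∧ toR B = Bp p v θ C S

/-- reduced tuples -/
def Red (B : Tup ℤ) : Prop := ∃ v : ℝ, Rd B v

/-! ### Reduction -/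

/-- PAR: the zero in the upper half plane. If all four zeros are real then `I = - 48 chA ≥ 0`. -/
def S_PAR : Prop := ∀ B : Tup ℝ, B.x ≠ 0 → 0 < chA B → ∃ p v θ C S : ℝ, 0 < v ∧ B = Bp p v θ C S

/-- UNI: the zero is unique -/
def S_UNI : Prop := ∀ p v θ C S p' v' θ' C' S' : ℝ, 0 < v → 0 < v' → 0 < chA (Bp p v θ C S) →
  Bp p v θ C S = Bp p' v' θ' C' S' → p = p' ∧ v = v'

/-- BDS: the size of reduced tuples -/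
def S_BDS : Prop := ∀ p v θ C S X : ℝ, FD p v → 0 ≤ X → 0 ≤ chA (Bp p v θ C S) → chA (Bp p v θ C S) ≤ X ^ 2 →
  |chB (Bp p v θ C S)| ≤ X ^ 3 →
  |θ| ≤ X ∧ |(Bp p v θ C S).x| * v ^ 2 ≤ 36 * X ∧ |(Bp p v θ C S).y| * v ≤ 36 * X ∧ |(Bp p v θ C S).c| ≤ 36 * X ∧
    |(Bp p v θ C S).z| ≤ 36 * X * v ∧ |(Bp p v θ C S).w| ≤ 36 * X * v ^ 2

/-- RDX: reduction. `P` is a property of the tuples of one class. -/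
def S_RDX : Prop := ∀ P : Tup ℤ → Prop,
  (∀ B, P B → P (tau 1 B) ∧ P (tau (-1) B) ∧ P (rf B) ∧ P (sw B)) →
  (∀ B, P B → B.x ≠ 0 ∧ 0 < chA B) → ∀ B, P B → ∃ B', P B' ∧ Red B'

/-- CUS: the cusp -/
def S_CUS : Prop := ∃ K : ℝ, 0 < K ∧ ∀ (a : ℤ) (X T : ℕ), 0 < a → a ≤ (X : ℤ) ^ 2 → 1 ≤ T → 1 ≤ X →
  ∀ S : Finset (Tup ℤ), (∀ B ∈ S, B.x ≠ 0 ∧ chA B = a ∧ |chB B| ≤ (X : ℤ) ^ 3 ∧ ∃ v : ℝ, (T : ℝ) ≤ v ∧ Rd B v) →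
    (S.card : ℝ) ≤ K * (X : ℝ) ^ 3 / T

/-! ### Counting in small cells -/

/-- The modulus: even, divisible by all primes up to `Z`. -/
structure Md (Z M : ℕ) : Prop where
  pos : 1 ≤ M
  even : 2 ∣ M
  dvd : ∀ p : ℕ, p.Prime → p ≤ Z → p ∣ M

/-- The classes modulo `M`. -/
structure Ok (M : ℕ) (a : ℤ) (β : Tup ℤ) : Prop where
  A : (M : ℤ) ∣ chA β - a
  two : (2 : ℤ) ∣ β.x → ¬ (2 : ℤ) ∣ β.y ∧ ¬ (2 : ℤ) ∣ β.w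
  odd : ∀ p : ℕ, p.Prime → p ≠ 2 → p ∣ M → (p : ℤ) ∣ β.x → (p : ℤ) ∣ β.y →
    p ≠ 3 ∧ p ^ 2 ∣ M ∧ ¬ (p : ℤ) ^ 2 ∣ β.x ∧ ¬ (p : ℤ) ∣ β.c

/-- `1` if `x` is odd; `2` or `0` if `x` is even -/
noncomputable def dl (x e : ℤ) : ℝ := if Odd x then 1 else if Even e then 2 else 0

/-- bound for the number of solutions of a quadratic congruence -/
noncomputable def rg (g : ℕ) : ℝ := if g = 1 then 1 else 12 * tn g * √(g : ℝ)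

/-- SPL: the greatest common divisor -/
def S_SPL : Prop := ∀ (M : ℕ) (a : ℤ) (β : Tup ℤ) (x y : ℤ), 1 ≤ M → 2 ∣ M → Ok M a β → (M : ℤ) ∣ x - β.x →
  (M : ℤ) ∣ y - β.y → x ≠ 0 → ∃ g₀ g : ℕ, Int.gcd x (2 * y) = g₀ * g ∧ g₀ ∣ M ∧ Nat.Coprime g M

/-- GAM: the number of the `γ` -/
def S_GAM : Prop := ∀ (M g₀ g : ℕ) (a : ℤ) (β : Tup ℤ) (x y e : ℤ), 1 ≤ M → 2 ∣ M → Ok M a β → (M : ℤ) ∣ x - β.x →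
  (M : ℤ) ∣ y - β.y → x ≠ 0 → Int.gcd x (2 * y) = g₀ * g → g₀ ∣ M → Nat.Coprime g M →
  e * M = 3 * β.c ^ 2 + 2 * y * β.z + x * β.w + a → ∀ (u : ℤ) (n : ℕ),
  (g₀ : ℝ) * g * (((Ioc u (u + n)).filter
    (fun γ : ℤ => (Int.gcd x (2 * y) : ℤ) ∣ 3 * M * γ ^ 2 + 6 * β.c * γ + e)).card : ℝ) ≤
    dl x e * rg g * (n + M * g)

/-- FBS: the tuples in a class with given `x`, `y` and `c`, `z` in given intervals -/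
def S_FBS : Prop := ∀ (L : ℝ) (M g₀ g h k : ℕ) (a : ℤ) (β : Tup ℤ) (x y e c₁ z₁ : ℤ), 2 ≤ L → 1 ≤ M → 2 ∣ M → Ok M a β →
  (M : ℤ) ∣ x - β.x → (M : ℤ) ∣ y - β.y → x ≠ 0 → Int.gcd x (2 * y) = g₀ * g → g₀ ∣ M → Nat.Coprime g M →
  e * M = 3 * β.c ^ 2 + 2 * y * β.z + x * β.w + a → |(x : ℝ)| ≤ L → (h : ℝ) ≤ L →
  ∀ S : Finset (Tup ℤ), (∀ B ∈ S, B.x = x ∧ B.y = y ∧ chA B = a ∧ Cgr M β B ∧ c₁ < B.c ∧ B.c ≤ c₁ + h ∧ z₁ < B.z ∧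
    B.z ≤ z₁ + k) →
  (S.card : ℝ) ≤ dl x e * rg g * ((h : ℝ) / M + 1 + M * g) * ((k : ℝ) / M + 1) / |(x : ℝ)| +
    4 * (L / √|(x : ℝ)|) * √(3 * M : ℝ) * (1 + Real.log L) ^ 2 * tn x.natAbs

/-- WS: the pairs with a common divisor prime to `M` -/
def S_WS : Prop := ∃ η : ℕ → ℝ, (∀ Z, 0 ≤ η Z) ∧ Tendsto η atTop (𝓝 0) ∧ ∀ Z M : ℕ, Md Z M →
  ∀ κ ρ σ ν ε : ℝ, 0 < κ → 0 < ρ → 0 < σ → 0 ≤ ν → 0 < ε → ∃ X₀ : ℝ, ∀ X ≥ X₀, ∀ (x₁ y₁ : ℝ) (x₀ y₀ : ℤ)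
  (Q : Finset (ℤ × ℤ)) (g : ℤ × ℤ → ℕ),
  (∀ q ∈ Q, q.1 ≠ 0 ∧ q.2 ≠ 0 ∧ |(q.1 : ℝ)| ≤ κ * X ∧ |(q.2 : ℝ)| ≤ κ * X ∧ x₁ ≤ q.1 ∧ (q.1 : ℝ) ≤ x₁ + ρ * X ∧ y₁ ≤ q.2 ∧
    (q.2 : ℝ) ≤ y₁ + σ * X ∧ (M : ℤ) ∣ q.1 - x₀ ∧ (M : ℤ) ∣ q.2 - y₀ ∧ 1 < g q ∧ Nat.Coprime (g q) M ∧
    (g q : ℤ) ∣ q.1 ∧ (g q : ℤ) ∣ 2 * q.2) →
  ∑ q ∈ Q, (tn (g q) : ℝ) * √(g q : ℝ) * (1 + ν * (g q : ℝ) / X) ≤ (η Z * (ρ * σ) / (M : ℝ) ^ 2 + ε) * X ^ 2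

/-- CEL: the tuples in a class and in a cell -/
def S_CEL : Prop := ∃ η : ℕ → ℝ, (∀ Z, 0 ≤ η Z) ∧ Tendsto η atTop (𝓝 0) ∧ ∀ Z M : ℕ, Md Z M →
  ∀ (a : ℤ) (κ x₁ ρ σ ε : ℝ), 0 < κ → 0 < x₁ → 0 < ρ → 0 < σ → 0 < ε → ∃ X₀ : ℝ, ∀ X ≥ X₀, ∀ y₁ c₁ z₁ : ℝ,
  |y₁| ≤ κ → |c₁| ≤ κ → |z₁| ≤ κ → ∀ β : Tup ℤ, Ok M a β → ∀ S : Finset (Tup ℤ),
  (∀ B ∈ S, B.y ≠ 0 ∧ chA B = a ∧ Cgr M β B ∧ x₁ * X ≤ B.x ∧ (B.x : ℝ) ≤ (x₁ + ρ) * X ∧ y₁ * X ≤ B.y ∧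
    (B.y : ℝ) ≤ (y₁ + σ) * X ∧ c₁ * X ≤ B.c ∧ (B.c : ℝ) ≤ (c₁ + σ) * X ∧ z₁ * X ≤ B.z ∧ (B.z : ℝ) ≤ (z₁ + σ) * X) →
  (S.card : ℝ) ≤ ((1 + η Z) * (ρ * σ ^ 3) / (x₁ * (M : ℝ) ^ 4) + ε) * X ^ 3

/-! ### The real volume -/

/-- COV: covering by small cubes -/
def S_COV : Prop := ∀ K : Set (Fin 4 → ℝ), IsCompact K → ∀ ε : ℝ, 0 < ε →
  ∃ (h : ℝ) (F : Finset (Fin 4 → ℝ)) (U : Set (Fin 4 → ℝ)), 0 < h ∧ h < ε ∧ IsOpen U ∧ K ⊆ U ∧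
    (∀ u ∈ U, ∃ f ∈ F, ∀ i, f i ≤ u i ∧ u i ≤ f i + h) ∧ (F.card : ℝ) * h ^ 4 ≤ (volume K).toReal + ε

/-- the tuple with `a = 0`, with parameters `p`, `v`, `φ`, `θ` -/
noncomputable def Bq (q : Fin 4 → ℝ) : Tup ℝ :=
  Bp (q 0) (q 1) (q 3) (2 * √3 * q 3 * Real.cos (q 2)) (2 * √3 * q 3 * Real.sin (q 2))

/-- the coordinates `(log x, y, c, z)` -/
noncomputable def cd (B : Tup ℝ) : Fin 4 → ℝ := ![Real.log B.x, B.y, B.c, B.z]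

/-- the domain of the parameters -/
def Dm : Set (Fin 4 → ℝ) :=
  {q | FD (q 0) (q 1) ∧ 0 ≤ q 2 ∧ q 2 ≤ 2 * Real.pi ∧ |q 3| ≤ 1 ∧ 0 < (Bq q).x}

/-- JAC: the Jacobian -/
def S_JAC : Prop := ∀ q : Fin 4 → ℝ, 0 < q 1 → 0 < (Bq q).x → ∃ f' : (Fin 4 → ℝ) →L[ℝ] (Fin 4 → ℝ),
  HasFDerivAt (fun q => cd (Bq q)) f' q ∧ |f'.det| = 3 * (q 3) ^ 2 / (q 1) ^ 2

/-- ITG: the integral of the Jacobian -/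
def S_ITG : Prop := MeasurableSet Dm ∧
  ∫⁻ q in Dm, ENNReal.ofReal (3 * (q 3) ^ 2 / (q 1) ^ 2) ≤ ENNReal.ofReal (Real.pi ^ 2 / 2)

/-- VOL: the volume -/
def S_VOL : Prop := volume ((fun q => cd (Bq q)) '' Dm) ≤ ENNReal.ofReal (Real.pi ^ 2 / 2)

/-- the compact part -/
def Dc (T δ : ℝ) : Set (Fin 4 → ℝ) := {q | q ∈ Dm ∧ q 1 ≤ T ∧ δ ≤ (Bq q).x}

/-- NBH: the tuples with small `a` are near those with `a = 0` -/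
def S_NBH : Prop := ∀ T δ : ℝ, 0 < T → 0 < δ → IsCompact ((fun q => cd (Bq q)) '' Dc T δ) ∧
  ∀ U : Set (Fin 4 → ℝ), IsOpen U → (fun q => cd (Bq q)) '' Dc T δ ⊆ U → ∃ a₀ : ℝ, 0 < a₀ ∧
    ∀ p v θ C S : ℝ, FD p v → v ≤ T → |θ| ≤ 1 → 12 * θ ^ 2 ≤ C ^ 2 + S ^ 2 → C ^ 2 + S ^ 2 ≤ 12 * θ ^ 2 + a₀ →
      δ ≤ (Bp p v θ C S).x → cd (Bp p v θ C S) ∈ U

/-- RGP: the main region, `x > 0` -/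
def S_RGP : Prop := ∃ η : ℕ → ℝ, (∀ Z, 0 ≤ η Z) ∧ Tendsto η atTop (𝓝 0) ∧ ∀ Z M : ℕ, Md Z M →
  ∀ (a : ℤ) (T δ ε : ℝ), 0 < a → 0 < T → 0 < δ → 0 < ε → ∃ X₀ : ℝ, ∀ X ≥ X₀, ∀ β : Tup ℤ, Ok M a β →
  ∀ S : Finset (Tup ℤ), (∀ B ∈ S, B.y ≠ 0 ∧ chA B = a ∧ Cgr M β B ∧ |((chB B : ℤ) : ℝ)| ≤ X ^ 3 ∧ δ * X ≤ B.x ∧
    ∃ v : ℝ, v ≤ T ∧ Rd B v) →
  (S.card : ℝ) ≤ ((1 + η Z) * (Real.pi ^ 2 / 2) / (M : ℝ) ^ 4 + ε) * X ^ 3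

/-- the tuples with coordinates in `[0, M)` -/
def Bo (M : ℕ) : Set (Tup ℤ) := {B | 0 ≤ B.x ∧ B.x < M ∧ 0 ≤ B.y ∧ B.y < M ∧ 0 ≤ B.c ∧ B.c < M ∧ 0 ≤ B.z ∧ B.z < M ∧
  0 ≤ B.w ∧ B.w < M}

/-- MAI: the reduced tuples in given classes -/
def S_MAI : Prop := ∃ η : ℕ → ℝ, (∀ Z, 0 ≤ η Z) ∧ Tendsto η atTop (𝓝 0) ∧ ∀ Z M : ℕ, Md Z M →
  ∀ (a : ℤ) (ε : ℝ), 0 < a → 0 < ε → ∃ X₀ : ℕ, ∀ X ≥ X₀, ∀ W : Finset (Tup ℤ), (∀ β ∈ W, β ∈ Bo M ∧ Ok M a β) →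
  ∀ S : Finset (Tup ℤ), (∀ B ∈ S, B.x ≠ 0 ∧ chA B = a ∧ |chB B| ≤ (X : ℤ) ^ 3 ∧ Red B ∧ ∃ β ∈ W, Cgr M β B) →
  (S.card : ℝ) ≤ ((1 + η Z) * (Real.pi ^ 2 * W.card) / (M : ℝ) ^ 4 + ε) * (X : ℝ) ^ 3

/-! ### Local densities -/

/-- solubility at `2` -/
def Sol8 (B : Tup ℤ) : Prop := 4 ∣ B.x ∨ 4 ∣ B.w ∨ 8 ∣ B.x - 7 ∨ 8 ∣ B.w - 7 ∨ (8 ∣ B.x - 3 ∧ 2 ∣ B.y + B.c + B.w - 1) ∨
  (8 ∣ B.w - 3 ∧ 2 ∣ B.x + B.c + B.z - 1)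

/-- CRT: the Chinese remainder theorem -/
def S_CRT : Prop := ∀ (m n : ℕ) (P Q : Tup ℤ → Prop), 1 ≤ m → 1 ≤ n → Nat.Coprime m n →
  (∀ B B', Cgr m B B' → (P B ↔ P B')) → (∀ B B', Cgr n B B' → (Q B ↔ Q B')) →
  {B | B ∈ Bo (m * n) ∧ P B ∧ Q B}.ncard = {B | B ∈ Bo m ∧ P B}.ncard * {B | B ∈ Bo n ∧ Q B}.ncard

/-- LPU: the tuples modulo `p ^ 2` with `x` prime to `p`. After `tau` one has `y = 0`, `x z ^ 2 = 8 c ^ 3 + 2 a c - b`. -/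
def S_LPU : Prop := ∀ p : ℕ, p.Prime → 5 ≤ p → ∀ a b : ℤ, ¬ (p : ℤ) ^ 2 ∣ dsc a b →
  {B | B ∈ Bo (p ^ 2) ∧ ¬ (p : ℤ) ∣ B.x ∧ (p : ℤ) ^ 2 ∣ chA B - a ∧ (p : ℤ) ^ 2 ∣ chB B - b}.ncard ≤
    p ^ 4 * (p - 1) * (if (p : ℤ) ∣ dsc a b then p - 1 else p)

/-- LPN: the tuples modulo `p ^ 2` with `x` divisible by `p` -/
def S_LPN : Prop := ∀ p : ℕ, p.Prime → 5 ≤ p → ∀ a b : ℤ, ¬ (p : ℤ) ^ 2 ∣ dsc a b →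
  {B | B ∈ Bo (p ^ 2) ∧ (p : ℤ) ∣ B.x ∧ (p : ℤ) ^ 2 ∣ chA B - a ∧ (p : ℤ) ^ 2 ∣ chB B - b}.ncard ≤
    p ^ 4 * (p - 1) * (if (p : ℤ) ∣ dsc a b then 2 else 1)

/-- LP2: the tuples modulo `p ^ 2` (the sum of LPU and LPN) -/
def S_LP2 : Prop := ∀ p : ℕ, p.Prime → 5 ≤ p → ∀ a b : ℤ, ¬ (p : ℤ) ^ 2 ∣ dsc a b →
  {B | B ∈ Bo (p ^ 2) ∧ (p : ℤ) ^ 2 ∣ chA B - a ∧ (p : ℤ) ^ 2 ∣ chB B - b}.ncard ≤ p ^ 3 * (p ^ 3 - p)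

/-- L3: the tuples modulo `3` -/
def S_L3 : Prop := ∀ a b : ℤ, ¬ (3 : ℤ) ∣ a →
  {B | B ∈ Bo 3 ∧ (3 : ℤ) ∣ chA B - a ∧ (3 : ℤ) ∣ chB B - b}.ncard ≤ 24

/-- L8: the tuples modulo `8` -/
def S_L8 : Prop := ∀ a b : ℤ, Odd a → Odd b →
  {B | B ∈ Bo 8 ∧ (8 : ℤ) ∣ chA B - a ∧ (8 : ℤ) ∣ chB B - b ∧ Sol8 B}.ncard ≤ 256

/-- the modulus -/
noncomputable def MZ (Z : ℕ) : ℕ := 24 * ∏ p ∈ (Icc 5 Z).filter Nat.Prime, p ^ 2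

/-- the classes of `b` -/
def Al (Z : ℕ) (a b : ℤ) : Prop := Odd b ∧ ∀ p : ℕ, p.Prime → 5 ≤ p → p ≤ Z → ¬ (p : ℤ) ^ 2 ∣ dsc a b

/-- LOC: the tuples modulo `MZ Z` -/
def S_LOC : Prop := ∀ Z : ℕ, 3 ≤ Z → ∀ a b : ℤ, Odd a → ¬ (3 : ℤ) ∣ a → Al Z a b →
  (({B | B ∈ Bo (MZ Z) ∧ (MZ Z : ℤ) ∣ chA B - a ∧ (MZ Z : ℤ) ∣ chB B - b ∧ Sol8 B}.ncard : ℕ) : ℝ) ≤
    (MZ Z : ℝ) ^ 3 / 2 * ∏ p ∈ (Icc 3 Z).filter Nat.Prime, (1 - 1 / (p : ℝ) ^ 2)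

/-- CND: the conditions on the classes -/
def S_CND : Prop := ∀ Z : ℕ, 3 ≤ Z → Md Z (MZ Z) ∧ ∀ a b : ℤ, Odd a → ¬ (3 : ℤ) ∣ a → Al Z a b → ∀ β : Tup ℤ,
  (MZ Z : ℤ) ∣ chA β - a → (MZ Z : ℤ) ∣ chB β - b → Ok (MZ Z) a β

/-- EUL: the Euler product of `ζ(2) = π² / 6` -/
def S_EUL : Prop := ∀ ε : ℝ, 0 < ε → ∃ Z₀ : ℕ, ∀ Z ≥ Z₀,
  ∏ p ∈ (Icc 3 Z).filter Nat.Prime, (1 - 1 / (p : ℝ) ^ 2) ≤ 8 / Real.pi ^ 2 + ε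

/-- DEN: the density of the `b` -/
def S_DEN : Prop := ∀ a : ℤ, 0 < a → Odd a → ¬ (3 : ℤ) ∣ a →
  (∃ c : ℝ, 0 < c ∧ ∃ Y₀ : ℕ, ∀ Y ≥ Y₀,
    c * (Y : ℝ) ≤ (((Icc (-(Y : ℤ)) Y).filter (fun b => Squarefree (dsc a b))).card : ℝ)) ∧
  ∀ ε : ℝ, 0 < ε → ∃ Z₀ : ℕ, ∀ Z ≥ Z₀, ∃ Y₀ : ℕ, ∀ Y ≥ Y₀,
    2 * (Y : ℝ) * (((Ico (0 : ℤ) (MZ Z)).filter (fun b => Al Z a b)).card : ℝ) / (MZ Z : ℝ) ≤
      (1 + ε) * (((Icc (-(Y : ℤ)) Y).filter (fun b => Squarefree (dsc a b))).card : ℝ)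

/-! ### Points and tuples -/

/-- `B` comes from `α`: there is a basis `e` with the Gram matrices `JJ` and `mt B`. -/
def Rel {L : Type} [Field L] [CharZero L] {a b : ℤ} {θ : L} (h : IsCub a b θ) (α : L) (B : Tup ℤ) : Prop :=
  ∃ e : Fin 3 → L, LinearIndependent ℚ e ∧ (∀ i j, h.co 2 (e i * e j / α) = (JJ i j : ℚ)) ∧
    ∀ i j, h.co 1 (e i * e j / α) = ((mt B i j : ℤ) : ℚ)

/-- EVP: the element `x - θ` of a point has even valuations. -/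
def S_EVP : Prop := ∀ (L O : Type) [Field L] [NumberField L] [CommRing O] [IsDedekindDomain O]
  [Algebra O L] [IsFractionRing O L] [IsIntegralClosure O ℤ L] (a b : ℤ) (θ : L),
  IsCub a b θ → Squarefree (dsc a b) → ∀ x y : ℚ, y ^ 2 = x ^ 3 + a * x + b →
  ∀ 𝔓 : HeightOneSpectrum O, Ev 𝔓 ((x : L) - θ)

/-- REX: existence of the tuple (from `S_SD`, `S_DET`, `S_MAJ`, `S_NRM` in `N922/PQ/Lat.lean`, which are proved) -/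
def S_REX : Prop := ∀ (L O : Type) [Field L] [NumberField L] [CommRing O] [IsDedekindDomain O]
  [Algebra O L] [IsFractionRing O L] [IsIntegralClosure O ℤ L] (a b : ℤ) (θ : L) (h : IsCub a b θ),
  0 < a → Squarefree (dsc a b) → ∀ α : L, α ≠ 0 → IsSquare (Algebra.norm ℚ α) →
  (∀ 𝔓 : HeightOneSpectrum O, Ev 𝔓 α) → ∃ B : Tup ℤ, Rel h α B

/-- RLM: the moves -/
def S_RLM : Prop := ∀ (L : Type) [Field L] [NumberField L] (a b : ℤ) (θ : L) (h : IsCub a b θ) (α : L) (B : Tup ℤ),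
  Rel h α B → Rel h α (tau 1 B) ∧ Rel h α (tau (-1) B) ∧ Rel h α (rf B) ∧ Rel h α (sw B)

/-- RLI: the tuple determines `α` up to squares (and the invariants of the tuple are `a` and `b`) -/
def S_RLI : Prop := ∀ (L : Type) [Field L] [NumberField L] (a b : ℤ) (θ : L) (h : IsCub a b θ) (α α' : L) (B : Tup ℤ),
  α ≠ 0 → α' ≠ 0 → Rel h α B → Rel h α' B → IsSquare (α * α')

/-- RLC: the invariants, and `x ≠ 0` (from `S_CHI`, `S_NZ` in `N922/PQ/Lat.lean`, which are proved) -/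
def S_RLC : Prop := ∀ (L : Type) [Field L] [NumberField L] (a b : ℤ) (θ : L) (h : IsCub a b θ) (α : L) (B : Tup ℤ),
  α ≠ 0 → Rel h α B → chA B = a ∧ chB B = b ∧ (IsSquare (Algebra.norm ℚ α) → ¬ IsSquare α → B.x ≠ 0)

/-- SQN: a point gives a rational zero of `z² = - gh` -/
def S_SQN : Prop := ∀ (L : Type) [Field L] [NumberField L] (a b : ℤ) (θ : L) (h : IsCub a b θ) (x : ℚ) (B : Tup ℤ),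
  Rel h ((x : L) - θ) B → ∃ s t n : ℤ, IsCoprime s t ∧ gh B s t = -n ^ 2

/-- SL8: the condition at `2` -/
def S_SL8 : Prop := ∀ (B : Tup ℤ) (s t n : ℤ), Odd (chA B) → Odd (chB B) → IsCoprime s t → gh B s t = -n ^ 2 → Sol8 B

/-- RNK: the rank and the tuples -/
def S_RNK : Prop := ∀ a b : ℤ, 0 < a → Odd a → Squarefree (dsc a b) → ∃ S : Finset (Tup ℤ),
  2 ^ Module.finrank ℤ (crv a b).toAffine.Point ≤ S.card + 1 ∧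
  ∀ B ∈ S, B.x ≠ 0 ∧ chA B = a ∧ chB B = b ∧ Red B ∧ Sol8 B

/-- FIN: the average of `2 ^ rank` -/
def S_FIN : Prop := ∀ a : ℤ, 0 < a → Odd a → ¬ (3 : ℤ) ∣ a → ∀ ε : ℝ, 0 < ε → ∃ Y₀ : ℕ, ∀ Y ≥ Y₀,
  ∑ b ∈ (Icc (-(Y : ℤ)) Y).filter (fun b => Squarefree (dsc a b)),
    (2 : ℝ) ^ Module.finrank ℤ (crv a b).toAffine.Point ≤
  (3 + ε) * (((Icc (-(Y : ℤ)) Y).filter (fun b => Squarefree (dsc a b))).card : ℝ)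

end Pool.Agent.L0h45.AV
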