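import Pool.Agent.L0h45.LR.Asm
import Pool.Agent.L0h45.AV.Fin2
import Pool.Agent.N922.PQ.Final
import Pool.Agent.L0h10.AV.LO3
import Pool.Agent.L0h23.AV.RLI
import Pool.Agent.L0h34.AV.RNS
import Pool.Agent.L0h55.AV.S8S
import Pool.Agent.L0h60.AV.SEV
import Pool.Agent.L0h60.AV.SE2
import Pool.Agent.L0h85.AV.SBM
import Pool.Agent.L0h10.AV.ITG
import Pool.Agent.L0h19.AV.DEN
import Pool.Agent.L0h2.AV.RLC
import Pool.Agent.L0h20.AV.JAC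
import Pool.Agent.L0h23.AV.RLM
import Pool.Agent.L0h24.AV.EUL
import Pool.Agent.L0h24.AV.LOC
import Pool.Agent.L0h24.AV.SL8
import Pool.Agent.L0h24.AV.VOL
import Pool.Agent.L0h26.AV.EVP
import Pool.Agent.L0h34.AV.CEL
import Pool.Agent.L0h4.AV.RDX
import Pool.Agent.L0h45.AV.CRT
import Pool.Agent.L0h48.AV.LPU
import Pool.Agent.L0h52.AV.LP2
import Pool.Agent.L0h55.AV.RNK
import Pool.Agent.L0h56.AV.RGP
import Pool.Agent.L0h56.AV.WS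
import Pool.Agent.L0h57.AV.SPL
import Pool.Agent.L0h63.AV.LPN
import Pool.Agent.L0h68.AV.CUS
import Pool.Agent.L0h68.AV.GAM
import Pool.Agent.L0h76.AV.SQN
import Pool.Agent.L0h76.AV.UNI
import Pool.Agent.L0h82.AV.NBH
import Pool.Agent.L0h84.AV.BDS
import Pool.Agent.L0h84.AV.CND
import Pool.Agent.L0h85.AV.COV
import Pool.Agent.L0h85.AV.FBS
import Pool.Agent.L0h90.AV.MAI
import Pool.Agent.L0h93.AV.L38
import Pool.Agent.L0h93.AV.REX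
import Pool.Agent.L0h96.AV.PAR

/-!
# AV: assembly
-/

set_option autoImplicit false
set_option linter.all false

open scoped Classical

namespace Pool.Agent.L0h45.AV

open Pool.Agent.N922.PQ (dsc)

theorem cus : S_CUS :=
  Pool.Agent.L0h68.AV.CUS.t_CUS
    (Pool.Agent.L0h45.LR.t_BX0 (Pool.Agent.L0h50.VL.v6 Pool.Agent.L0h83.VL.v2 Pool.Agent.L0h85.VL.t_V3 Pool.Agent.L0h85.VL.t_V4))
    Pool.Agent.L0h84.AV.t_BDS t_UNI

theorem gam : S_GAM := Pool.Agent.L0h68.AV.t_GAM (Pool.Agent.L0h95.LR.t_RHO Pool.Agent.L0h85.VL.t_V3)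

theorem fbs : S_FBS := Pool.Agent.L0h85.AV.t_FBS Pool.Agent.L0h45.LR.eqd gam

theorem cel : S_CEL := Pool.Agent.L0h34.AV.t_CEL Pool.Agent.L0h57.AV.SPLM.t_SPL fbs Pool.Agent.L0h56.AV.t_WS

theorem vol : S_VOL := Pool.Agent.L0h24.AV.t_VOL Pool.Agent.L0h20.AV.t_JAC Pool.Agent.L0h10.AV.t_ITG

theorem rgp : S_RGP :=
  Pool.Agent.L0h56.AV.t_RGP Pool.Agent.L0h84.AV.t_BDS cel Pool.Agent.L0h85.AV.COV.t_COV vol Pool.Agent.L0h82.AV.t_NBH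

theorem mai : S_MAI :=
  Pool.Agent.L0h90.AV.t_MAI Pool.Agent.L0h84.AV.t_BDS cus
    (Pool.Agent.L0h83.LR.t_TRV Pool.Agent.L0h83.VL.v2 Pool.Agent.L0h85.VL.t_V3 Pool.Agent.L0h85.VL.t_V4) rgp

theorem loc : S_LOC :=
  Pool.Agent.L0h24.AV.t_LOC Pool.Agent.L0h45.AV.t_CRT
    (Pool.Agent.L0h52.AV.t_LP2 Pool.Agent.L0h48.AV.t_LPU Pool.Agent.L0h63.AV.t_LPN) Pool.Agent.L0h93.AV.L38.t_L3
    Pool.Agent.L0h93.AV.L38.t_L8

theorem den : S_DEN := Pool.Agent.L0h19.AV.t_DEN Pool.Agent.L0h32.LR.t_PELL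

theorem rex : S_REX :=
  Pool.Agent.L0h93.AV.REX.t_REX Pool.Agent.N400.PQSD.sd (Pool.Agent.N227.PQ.det Pool.Agent.N849.PQ.int)
    Pool.Agent.N50.PQ.Maj.maj Pool.Agent.N592.PQ.nrm

theorem rlc : S_RLC := Pool.Agent.L0h2.AV.t_RLC Pool.Agent.N738.PQ.chi Pool.Agent.N738.PQ.nz

theorem rdx : S_RDX := Pool.Agent.L0h4.AV.t_RDX Pool.Agent.L0h96.AV.t_PAR Pool.Agent.L0h84.AV.t_BDS

theorem rnk : S_RNK :=
  Pool.Agent.L0h55.AV.t_RNK rdx Pool.Agent.L0h26.AV.t_EVP rex Pool.Agent.L0h23.AV.t_RLM Pool.Agent.L0h23.AV.t_RLI rlc t_SQN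
    Pool.Agent.L0h24.AV.t_SL8

theorem rns : S_RNS :=
  Pool.Agent.L0h34.AV.t_RNS rdx rex Pool.Agent.L0h23.AV.t_RLM Pool.Agent.L0h23.AV.t_RLI rlc
    (Pool.Agent.L0h60.AV.t_SEV Pool.Agent.N922.PQ.parts.glr Pool.Agent.N922.PQ.parts.loc1 Pool.Agent.N922.PQ.parts.lie
      Pool.Agent.N922.PQ.parts.p3 Pool.Agent.L0h10.AV.t_LO3)
    (Pool.Agent.L0h60.AV.t_SE2 Pool.Agent.N922.PQ.parts.glr2 Pool.Agent.N922.PQ.parts.emb Pool.Agent.N922.PQ.parts.tw2)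
    Pool.Agent.L0h55.AV.t_S8S Pool.Agent.L0h85.AV.SBM.t_SBM Pool.Agent.N922.PQ.parts.gb Pool.Agent.N922.PQ.parts.gn
    Pool.Agent.N922.PQ.parts.gt

/-- the average of `2 ^ rank` -/
theorem main_rank : S_FIN := t_FIN rnk mai loc Pool.Agent.L0h84.AV.t_CND Pool.Agent.L0h24.AV.t_EUL den

/-- the average size of the 2-Selmer group -/
theorem main_sel : ∀ a : ℤ, 0 < a → Odd a → ¬ (3 : ℤ) ∣ a → (∀ b : ℤ, Squarefree (dsc a b) → Finite (Sl a b)) ∧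
    ∀ ε : ℝ, 0 < ε → ∃ Y₀ : ℕ, ∀ Y ≥ Y₀,
      ∑ b ∈ (Finset.Icc (-(Y : ℤ)) Y).filter (fun b => Squarefree (dsc a b)), (Nat.card (Sl a b) : ℝ) ≤
        (3 + ε) * (((Finset.Icc (-(Y : ℤ)) Y).filter (fun b => Squarefree (dsc a b))).card : ℝ) :=
  t_FINS rns mai loc Pool.Agent.L0h84.AV.t_CND Pool.Agent.L0h24.AV.t_EUL den

end Pool.Agent.L0h45.AV
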