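import Pool.Agent.L0h45.AV.Stm3

/-!
# Project AV (helper45), fourth part: even `a` as well

The same statements as in `Stm.lean`, `Stm2.lean`, `Stm3.lean`, without the condition that `a` is odd. Copy and adapt your file. (The
condition `b` odd follows: `4 a³ + 27 b²` is not squarefree for `b` even.)
-/

set_option autoImplicit false
set_option linter.all false

open Polynomial Finset IsDedekindDomain NumberField MeasureTheory Filter Topology WeierstrassCurve WeierstrassCurve.Affine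
open Pool.Agent.TH115.GD
open scoped Classical IntermediateField

namespace Pool.Agent.L0h45.AV

open Pool.Agent.N874.PP (Tup chA chB gq tau Ev sW IsBeta Rt)
open Pool.Agent.N874.PM (PLoc Lies)
open Pool.Agent.N922.PQ (dsc IsCub JJ Ov Loc2 PL2)
open Pool.Agent.L0h45.LR (tn Bx Cgr)
open Pool.Agent.L0h45.AR (crv)

/-! ### Counting -/

/-- L8e: as `S_L8` (`L0h93/AV/L38.lean`), `a` arbitrary; the same computation is true for even `a` (checked numerically) -/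
def S_L8e : Prop := ∀ a b : ℤ, Odd b →
  {B : Tup ℤ | B ∈ Bo 8 ∧ (8 : ℤ) ∣ chA B - a ∧ (8 : ℤ) ∣ chB B - b ∧ Sol8 B}.ncard ≤ 256

/-- LOCe: as `S_LOC` (`L0h24/AV/LOC.lean`); hypotheses S_CRT, S_LP2, S_L3, S_L8e -/
def S_LOCe : Prop := ∀ Z : ℕ, 3 ≤ Z → ∀ a b : ℤ, ¬ (3 : ℤ) ∣ a → Al Z a b →
  (({B : Tup ℤ | B ∈ Bo (MZ Z) ∧ (MZ Z : ℤ) ∣ chA B - a ∧ (MZ Z : ℤ) ∣ chB B - b ∧ Sol8 B}.ncard : ℕ) : ℝ) ≤
    (MZ Z : ℝ) ^ 3 / 2 * ∏ p ∈ (Icc 3 Z).filter Nat.Prime, (1 - 1 / (p : ℝ) ^ 2)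

/-- CNDe: as `S_CND` (`L0h84/AV/CND.lean`) -/
def S_CNDe : Prop := ∀ Z : ℕ, 3 ≤ Z → Md Z (MZ Z) ∧ ∀ a b : ℤ, ¬ (3 : ℤ) ∣ a → Al Z a b → ∀ β : Tup ℤ,
  (MZ Z : ℤ) ∣ chA β - a → (MZ Z : ℤ) ∣ chB β - b → Ok (MZ Z) a β

/-- DENe: as `S_DENn` (`L0h24/AV/DENn.lean`), hypothesis S_PELLn -/
def S_DENe : Prop := ∀ a : ℤ, a ≠ 0 → ¬ (3 : ℤ) ∣ a →
  (∃ c : ℝ, 0 < c ∧ ∃ Y₀ : ℕ, ∀ Y ≥ Y₀,
    c * (Y : ℝ) ≤ (((Icc (-(Y : ℤ)) Y).filter (fun b => 0 < dsc a b ∧ Squarefree (dsc a b))).card : ℝ)) ∧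
  ∀ ε : ℝ, 0 < ε → ∃ Z₀ : ℕ, ∀ Z ≥ Z₀, ∃ Y₀ : ℕ, ∀ Y ≥ Y₀,
    2 * (Y : ℝ) * (((Ico (0 : ℤ) (MZ Z)).filter (fun b => Al Z a b)).card : ℝ) / (MZ Z : ℝ) ≤
      (1 + ε) * (((Icc (-(Y : ℤ)) Y).filter (fun b => 0 < dsc a b ∧ Squarefree (dsc a b))).card : ℝ)

/-! ### Local conditions -/

/-- HENe: Hensel's lemma for `z² + z = w` (the derivative is a unit in every residue characteristic) -/
def S_HENe : Prop := ∀ (M R : Type) [Field M] [CommRing R] [IsDedekindDomain R] [Algebra R M]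
  [IsFractionRing R M] (v : HeightOneSpectrum R) (w : v.adicCompletion M), Valued.v w < 1 →
  ∃ z : v.adicCompletion M, Valued.v z < 1 ∧ z ^ 2 + z = w

/-- FARe: as `Pool.Agent.N426.PM.far` (`N426/PM/GLR.lean`), without `v.valuation M 2 = 1`; from S_HENe: take the small element `s`
with `A s⁴ = 4 A'`, `B s⁶ = 4 B'`, `A'`, `B'` small, then `1 + 4 (A' + B') = (1 + 2 z)²` for `z² + z = A' + B'` -/
def S_FARe : Prop := ∀ (M R : Type) [Field M] [CommRing R] [IsDedekindDomain R] [Algebra R M]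
  [IsFractionRing R M] (A B : M), (6 : M) ≠ 0 → 4 * A ^ 3 + 27 * B ^ 2 ≠ 0 → ∀ v : HeightOneSpectrum R,
  ∃ P0 : Pt (sW A B) (Comp R M v), (2 : ℕ) • (2 : ℕ) • P0 ≠ 0

/-- GLRe: as `S_GLR` (`Pool.Agent.N426.PM.glr` in `N426/PM/GLR.lean`), without `v.valuation M 2 = 1`; hypothesis S_FARe (and use
`gp1 gp2 gp3 gp4` of `N630/PP/GP.lean` as in `N7/PQ/Glr2.lean`) -/
def S_GLRe : Prop := ∀ (M R : Type) [Field M] [CommRing R] [IsDedekindDomain R] [Algebra R M]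
  [IsFractionRing R M] (A B : M), (6 : M) ≠ 0 → 4 * A ^ 3 + 27 * B ^ 2 ≠ 0 →
  ∀ f : (Sep M ≃ₐ[M] Sep M) → Pt (sW A B) (Sep M), IsCoc (sW A B) f → (∀ σ, (2 : ℕ) • f σ = 0) →
  ∀ (β : Sep M → Sep M) (h : M[X]), IsBeta A B f β →
    (∀ t : Sep M, Rt A B t → aeval t h = β t ^ 2) →
    ∀ v : HeightOneSpectrum R,
      LocTriv (sW A B) (Comp R M v) (Sep (Comp R M v)) f → PLoc (Comp R M v) A B h

/-- SEVe: as `S_SEV` (`L0h60/AV/SEV.lean`). Hypotheses S_GLRe, S_LOC1M, S_LIE, S_LO3 (at `2` and `3` by S_LO3: the discriminant is a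
unit there) -/
def S_SEVe : Prop := ∀ (L O : Type) [Field L] [NumberField L] [CommRing O] [IsDedekindDomain O]
  [Algebra O L] [IsFractionRing O L] [IsIntegralClosure O ℤ L] (a b : ℤ) (θ : L),
  IsCub a b θ → Squarefree (dsc a b) → ∀ f ∈ SelZ a b, ∀ (β : Sep ℚ → Sep ℚ) (h : ℚ[X]),
  IsBeta (a : ℚ) (b : ℚ) f β → (∀ t : Sep ℚ, Rt (a : ℚ) (b : ℚ) t → aeval t h = β t ^ 2) →
  aeval θ h ≠ 0 → ∀ 𝔓 : HeightOneSpectrum O, Ev 𝔓 (aeval θ h)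

/-- SE2e: as `S_SE2` (`L0h60/AV/SE2.lean`). Hypotheses S_GLRe, S_EMB, S_TW2 -/
def S_SE2e : Prop := ∀ (L : Type) [Field L] [NumberField L] (a b : ℤ) (θ : L),
  IsCub a b θ → dsc a b ≠ 0 → ∀ f ∈ SelZ a b, ∀ (β : Sep ℚ → Sep ℚ) (h : ℚ[X]),
  IsBeta (a : ℚ) (b : ℚ) f β → (∀ t : Sep ℚ, Rt (a : ℚ) (b : ℚ) t → aeval t h = β t ^ 2) → Loc2 a b θ (aeval θ h)

/-- S8Se: as `S_S8S` (`L0h55/AV/S8S.lean`), in the algebra `ℚ₂[X] / (X³ + a X + b)`, which need not be a field: the image of `α ≠ 0`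
is a unit, and so is `x - ϑ` for `x³ + a x + b = y²`, `y ≠ 0`; multiply by inverses instead of dividing. -/
def S_S8Se : Prop := ∀ (L : Type) [Field L] [NumberField L] (a b : ℤ) (θ : L) (h : IsCub a b θ) (α : L) (B : Tup ℤ),
  α ≠ 0 → Rel h α B → Loc2 a b θ α → Sol8 B

/-! ### Points, Selmer elements and tuples -/

/-- IRRe: `t` would be an integer and `4 a³ + 27 b² = (4 a + 3 t²) (a + 3 t²)²`, so `a + 3 t² = ± 1`, `4 a + 3 t² = ± 4 - 9 t²` is positive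
only for `t = 0`, `a = 1`, `b = 0`. -/
def S_IRRe : Prop := ∀ a b : ℤ, 0 < dsc a b → Squarefree (dsc a b) → ∀ t : ℚ, t ^ 3 + a * t + b ≠ 0

/-- SL8e -/
def S_SL8e : Prop := ∀ (B : Tup ℤ) (s t n : ℤ), IsCoprime s t → gh B s t = -n ^ 2 → Sol8 B

/-- RNKe: as `S_RNKn` (`L0h55/AV/RNKn.lean`). Hypotheses S_IRRe, S_RDXn, S_EVP, S_REXn, S_RLM, S_RLI, S_RLC, S_SQN, S_SL8e -/
def S_RNKe : Prop := ∀ a b : ℤ, 0 < dsc a b → Squarefree (dsc a b) → ∃ S : Finset (Tup ℤ),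
  2 ^ Module.finrank ℤ (crv a b).toAffine.Point ≤ S.card + 1 ∧
  ∀ B ∈ S, B.x ≠ 0 ∧ chA B = a ∧ chB B = b ∧ Red B ∧ Sol8 B

/-- RNSe: as `S_RNS` (`L0h34/AV/RNS.lean`, `L0h88/AV/RNSn.lean`). Hypotheses S_IRRe, S_RDXn, S_REXn, S_RLM, S_RLI, S_RLC, S_SEVe,
S_SE2e, S_S8Se, S_SBM, S_GB, S_GN, S_GT -/
def S_RNSe : Prop := ∀ a b : ℤ, 0 < dsc a b → Squarefree (dsc a b) →
  ∀ U : Finset ((Sep ℚ ≃ₐ[ℚ] Sep ℚ) → Pt (sW (a : ℚ) (b : ℚ)) (Sep ℚ)), (∀ f ∈ U, f ∈ SelZ a b) →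
  (∀ f ∈ U, ∀ g ∈ U, f ≠ g → ¬ Coh a b f g) → ∃ S : Finset (Tup ℤ), U.card ≤ S.card + 1 ∧
  ∀ B ∈ S, B.x ≠ 0 ∧ chA B = a ∧ chB B = b ∧ Red B ∧ Sol8 B

end Pool.Agent.L0h45.AV
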