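import Pool.Agent.L0h45.AV.Fin2
import Pool.Agent.L0h45.AV.Stm4

/-!
# AV: the averages, every `a` prime to `3`
-/

set_option autoImplicit false
set_option linter.all false

open Finset Filter Topology
open Pool.Agent.TH115.GD
open scoped Classical

namespace Pool.Agent.L0h45.AV

open Pool.Agent.N874.PP (Tup chA chB gq tau Ev sW)
open Pool.Agent.N922.PQ (dsc IsCub JJ Ov)
open Pool.Agent.L0h45.LR (tn Bx Cgr)
open Pool.Agent.L0h45.AR (crv)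

theorem Ws_carde (hLOC : S_LOCe) {Z : ℕ} (hZ : 3 ≤ Z) {a : ℤ} (h3 : ¬ (3 : ℤ) ∣ a) :
    (((Ws_finite Z a).toFinset.card : ℕ) : ℝ) ≤ (((Ico (0 : ℤ) (MZ Z)).filter (fun b => Al Z a b)).card : ℝ) *
      ((MZ Z : ℝ) ^ 3 / 2 * ∏ p ∈ (Icc 3 Z).filter Nat.Prime, (1 - 1 / (p : ℝ) ^ 2)) := by
  have hf : ∀ b : ℤ, ({B : Tup ℤ | B ∈ Bo (MZ Z) ∧ (MZ Z : ℤ) ∣ chA B - a ∧ (MZ Z : ℤ) ∣ chB B - b ∧ Sol8 B}).Finite :=
    fun b => (Bo_finite (MZ Z)).subset fun _ h => h.1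
  have hsub : (Ws_finite Z a).toFinset ⊆
      ((Ico (0 : ℤ) (MZ Z)).filter (fun b => Al Z a b)).biUnion (fun b => (hf b).toFinset) := by
    intro β hβ
    rw [Set.Finite.mem_toFinset] at hβ
    obtain ⟨h1, h2, b, hb, h4, h5⟩ := hβ
    rw [mem_biUnion]
    refine ⟨b, hb, ?_⟩
    rw [Set.Finite.mem_toFinset]
    exact ⟨h1, h2, h4, h5⟩
  have h1 := (card_le_card hsub).trans card_biUnion_le
  have h2 : ((∑ b ∈ (Ico (0 : ℤ) (MZ Z)).filter (fun b => Al Z a b), (hf b).toFinset.card : ℕ) : ℝ) ≤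
      ∑ b ∈ (Ico (0 : ℤ) (MZ Z)).filter (fun b => Al Z a b),
        ((MZ Z : ℝ) ^ 3 / 2 * ∏ p ∈ (Icc 3 Z).filter Nat.Prime, (1 - 1 / (p : ℝ) ^ 2)) := by
    push_cast
    refine sum_le_sum fun b hb => ?_
    have h3' := hLOC Z hZ a b h3 (mem_filter.mp hb).2
    rwa [Set.ncard_eq_toFinset_card _ (hf b)] at h3'
  rw [sum_const, nsmul_eq_mul] at h2
  exact (by exact_mod_cast h1 : (((Ws_finite Z a).toFinset.card : ℕ) : ℝ) ≤ _).trans h2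

/-- the number of the reduced tuples with squarefree discriminant, soluble at `2` -/
theorem t_FINAe (hMAI : S_MAIn) (hLOC : S_LOCe) (hCND : S_CNDe) (hEUL : S_EUL) (hDEN : S_DENe) :
    ∀ a : ℤ, ¬ (3 : ℤ) ∣ a → ∀ ε : ℝ, 0 < ε → ∃ Y₀ : ℕ, ∀ Y ≥ Y₀, ∀ Sb : ℤ → Finset (Tup ℤ),
      (∀ b ∈ (Icc (-(Y : ℤ)) Y).filter (fun b => 0 < dsc a b ∧ Squarefree (dsc a b)), ∀ B ∈ Sb b,
        B.x ≠ 0 ∧ chA B = a ∧ chB B = b ∧ Red B ∧ Sol8 B) →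
      ∑ b ∈ (Icc (-(Y : ℤ)) Y).filter (fun b => 0 < dsc a b ∧ Squarefree (dsc a b)), ((Sb b).card : ℝ) ≤
        (2 + ε) * (((Icc (-(Y : ℤ)) Y).filter (fun b => 0 < dsc a b ∧ Squarefree (dsc a b))).card : ℝ) := by
  intro a h3 ε hε
  have ha : a ≠ 0 := by
    rintro rfl
    exact h3 (dvd_zero 3)
  obtain ⟨⟨c, hc, Y₁, hY₁⟩, hden⟩ := hDEN a ha h3
  obtain ⟨η, hη0, hη, hmai⟩ := hMAI
  obtain ⟨δ, hδ⟩ : ∃ δ : ℝ, δ = min 1 (ε / 80) := ⟨_, rfl⟩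
  have hδ0 : 0 < δ := by rw [hδ]; positivity
  have hδ1 : δ ≤ 1 := by rw [hδ]; exact min_le_left _ _
  have hδ2 : δ ≤ ε / 80 := by rw [hδ]; exact min_le_right _ _
  obtain ⟨Z₁, hZ₁⟩ := hEUL δ hδ0
  obtain ⟨Z₂, hZ₂⟩ := hden δ hδ0
  obtain ⟨Z₃, hZ₃⟩ := (eventually_atTop.mp ((tendsto_order.mp hη).2 δ hδ0))
  obtain ⟨Z, hZ⟩ : ∃ Z : ℕ, Z = Z₁ + Z₂ + Z₃ + 3 := ⟨_, rfl⟩
  have hE := hZ₁ Z (by omega)
  obtain ⟨Y₂, hY₂⟩ := hZ₂ Z (by omega)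
  have hηZ := hZ₃ Z (by omega)
  have hZ3 : 3 ≤ Z := by omega
  obtain ⟨hMd, hOk⟩ := hCND Z hZ3
  obtain ⟨X₀, hX₀⟩ := hmai Z (MZ Z) hMd a (c * ε / 4) (by positivity)
  obtain ⟨Y₃, hY₃⟩ := cubes δ hδ0 X₀
  refine ⟨Y₁ + Y₂ + Y₃ + 1, fun Y hY Sb hSb2 => ?_⟩
  obtain ⟨X, hXX, hYX, hXY⟩ := hY₃ Y (by omega)
  obtain ⟨F, hF⟩ : ∃ F : Finset ℤ, F = (Icc (-(Y : ℤ)) Y).filter (fun b => 0 < dsc a b ∧ Squarefree (dsc a b)) := ⟨_, rfl⟩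
  rw [← hF]
  have hDc := hY₁ Y (by omega)
  have hDd := hY₂ Y (by omega)
  rw [← hF] at hDc hDd
  have hFm : ∀ b ∈ F, |b| ≤ (Y : ℤ) ∧ 0 < dsc a b ∧ Squarefree (dsc a b) := by
    intro b hb
    rw [hF, mem_filter, mem_Icc] at hb
    exact ⟨abs_le.mpr hb.1, hb.2⟩
  rw [← hF] at hSb2
  -- the union
  have hcard : (F.biUnion Sb).card = ∑ b ∈ F, (Sb b).card := by
    refine card_biUnion fun b hb b' hb' hne => ?_
    show Disjoint (Sb b) (Sb b')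
    rw [Finset.disjoint_left]
    intro B hB hB'
    exact hne ((hSb2 b hb B hB).2.2.1.symm.trans (hSb2 b' hb' B hB').2.2.1)
  have hmain := hX₀ X hXX (Ws_finite Z a).toFinset (by
    intro β hβ
    rw [Set.Finite.mem_toFinset] at hβ
    obtain ⟨h1, h2, b, hb, h4, -⟩ := hβ
    exact ⟨h1, hOk a b h3 (mem_filter.mp hb).2 β h2 h4⟩) (F.biUnion Sb) (by
    intro B hB
    rw [mem_biUnion] at hB
    obtain ⟨b, hb, hB⟩ := hB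
    obtain ⟨h1, h2, h4, h5, h6⟩ := hSb2 b hb B hB
    refine ⟨h1, h2, ?_, ?_, h5, Ws_mem h2 (by rw [h4]; exact (hFm b hb).2.2) h6⟩
    swap
    · rw [h4]
      exact (hFm b hb).2.1
    rw [h4]
    exact (hFm b hb).1.trans (by exact_mod_cast hYX))
  have hsum : ∑ b ∈ F, ((Sb b).card : ℝ) = ((F.biUnion Sb).card : ℝ) := by
    rw [hcard]
    push_cast
    rfl
  have hWc := Ws_carde hLOC hZ3 h3
  -- numbers
  obtain ⟨W, hW⟩ : ∃ W : ℝ, W = (((Ws_finite Z a).toFinset.card : ℕ) : ℝ) := ⟨_, rfl⟩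
  obtain ⟨A, hA⟩ : ∃ A : ℝ, A = (((Ico (0 : ℤ) (MZ Z)).filter (fun b => Al Z a b)).card : ℝ) := ⟨_, rfl⟩
  obtain ⟨P, hP⟩ : ∃ P : ℝ, P = ∏ p ∈ (Icc 3 Z).filter Nat.Prime, (1 - 1 / (p : ℝ) ^ 2) := ⟨_, rfl⟩
  obtain ⟨M, hM⟩ : ∃ M : ℝ, M = (MZ Z : ℝ) := ⟨_, rfl⟩
  obtain ⟨D, hD⟩ : ∃ D : ℝ, D = (F.card : ℝ) := ⟨_, rfl⟩
  obtain ⟨y, hy⟩ : ∃ y : ℝ, y = (Y : ℝ) := ⟨_, rfl⟩
  obtain ⟨x, hx⟩ : ∃ x : ℝ, x = (X : ℝ) ^ 3 := ⟨_, rfl⟩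
  rw [← hW, ← hM, ← hx] at hmain
  rw [← hW, ← hA, ← hM, ← hP] at hWc
  rw [← hP] at hE
  rw [← hD, ← hy] at hDc
  rw [← hA, ← hM, ← hD, ← hy] at hDd
  rw [← hx, ← hy] at hXY
  rw [← hD, hsum]
  have hM1 : 0 < M := by
    rw [hM]
    exact_mod_cast MZ_pos Z
  have hA0 : 0 ≤ A := by rw [hA]; positivity
  have hD0 : 0 ≤ D := by rw [hD]; positivity
  have hy0 : 0 ≤ y := by rw [hy]; positivity
  have hx0 : 0 ≤ x := by rw [hx]; positivity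
  have hpi : 0 < Real.pi ^ 2 := by positivity
  have hpi2 : Real.pi ^ 2 ≤ 12 := by
    have h1 := Real.pi_lt_d2
    have h2 := Real.pi_pos
    nlinarith
  have hP0 : 0 ≤ P := by
    rw [hP]
    refine prod_nonneg fun p hp => ?_
    have h1 : (1 : ℝ) ≤ (p : ℝ) ^ 2 := by
      have : (1 : ℝ) ≤ p := by exact_mod_cast (mem_filter.mp hp).2.one_le
      nlinarith
    have h2 : 1 / (p : ℝ) ^ 2 ≤ 1 := by
      rw [div_le_one (by linarith)]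
      exact h1
    linarith
  -- first step
  have hW0 : 0 ≤ W := by rw [hW]; positivity
  have s1 : (1 + η Z) * (Real.pi ^ 2 * W) / M ^ 4 ≤ (1 + δ) * (Real.pi ^ 2 / 2 * P) * (A / M) := by
    have h1 : (1 + η Z) * (Real.pi ^ 2 * W) / M ^ 4 ≤ (1 + δ) * (Real.pi ^ 2 * (A * (M ^ 3 / 2 * P))) / M ^ 4 := by
      have := hη0 Z
      gcongr
    refine h1.trans (le_of_eq ?_)
    field_simp
  have s2 : Real.pi ^ 2 / 2 * P ≤ 4 + 6 * δ := by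
    have h1 : Real.pi ^ 2 / 2 * P ≤ Real.pi ^ 2 / 2 * (8 / Real.pi ^ 2 + δ) := by gcongr
    have h2 : Real.pi ^ 2 / 2 * (8 / Real.pi ^ 2 + δ) = 4 + Real.pi ^ 2 / 2 * δ := by
      field_simp
      ring
    rw [h2] at h1
    have h4 : Real.pi ^ 2 / 2 * δ ≤ 6 * δ := by
      have : Real.pi ^ 2 / 2 ≤ 6 := by linarith
      gcongr
    linarith
  have hAM : 0 ≤ A / M := by positivity
  have s3 : (1 + δ) * (Real.pi ^ 2 / 2 * P) * (A / M) * x ≤ (1 + δ) * (4 + 6 * δ) * ((1 + δ) * ((1 + δ) * D / 2)) := by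
    have h1 : (1 + δ) * (Real.pi ^ 2 / 2 * P) * (A / M) * x ≤
        (1 + δ) * (4 + 6 * δ) * (A / M) * ((1 + δ) * y) := by gcongr
    have h2 : (1 + δ) * (4 + 6 * δ) * (A / M) * ((1 + δ) * y) = (1 + δ) * (4 + 6 * δ) * ((1 + δ) * ((2 * y * A / M) / 2)) := by
      ring
    rw [h2] at h1
    refine h1.trans ?_
    gcongr
  have s4 : (1 + δ) * (4 + 6 * δ) * ((1 + δ) * ((1 + δ) * D / 2)) ≤ (2 + 38 * δ) * D := by
    have h1 : (1 + δ) ^ 3 ≤ 1 + 7 * δ := by nlinarith [mul_nonneg hδ0.le hδ0.le, mul_nonneg hδ0.le (sub_nonneg.mpr hδ1)]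
    have h2 : (1 + δ) * (4 + 6 * δ) * ((1 + δ) * ((1 + δ) * D / 2)) = (1 + δ) ^ 3 * (2 + 3 * δ) * D := by ring
    rw [h2]
    have h4 : (1 + δ) ^ 3 * (2 + 3 * δ) ≤ 2 + 38 * δ := by
      calc (1 + δ) ^ 3 * (2 + 3 * δ) ≤ (1 + 7 * δ) * (2 + 3 * δ) := by gcongr
        _ ≤ 2 + 38 * δ := by nlinarith
    gcongr
  have s5 : c * ε / 4 * x ≤ ε / 2 * D := by
    have h1 : c * ε / 4 * x ≤ c * ε / 4 * ((1 + δ) * y) := by gcongr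
    have h2 : c * ε / 4 * ((1 + δ) * y) ≤ c * ε / 4 * (2 * y) := by
      gcongr
      linarith
    have h4 : c * ε / 4 * (2 * y) = ε / 2 * (c * y) := by ring
    rw [h4] at h2
    refine h1.trans (h2.trans ?_)
    gcongr
  have s6 : ((F.biUnion Sb).card : ℝ) ≤ (2 + 38 * δ) * D + ε / 2 * D := by
    refine hmain.trans ?_
    rw [add_mul]
    refine add_le_add ?_ s5
    refine le_trans ?_ (s3.trans s4)
    gcongr
  have s7 : 38 * δ ≤ ε / 2 := by linarith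
  have s8 : 38 * δ * D ≤ ε / 2 * D := by gcongr
  linarith

/-- **FIN** -/
theorem t_FINe (hRNK : S_RNKe) (hMAI : S_MAIn) (hLOC : S_LOCe) (hCND : S_CNDe) (hEUL : S_EUL) (hDEN : S_DENe) :
    ∀ a : ℤ, ¬ (3 : ℤ) ∣ a → ∀ ε : ℝ, 0 < ε → ∃ Y₀ : ℕ, ∀ Y ≥ Y₀,
      ∑ b ∈ (Icc (-(Y : ℤ)) Y).filter (fun b => 0 < dsc a b ∧ Squarefree (dsc a b)),
        (2 : ℝ) ^ Module.finrank ℤ (crv a b).toAffine.Point ≤
      (3 + ε) * (((Icc (-(Y : ℤ)) Y).filter (fun b => 0 < dsc a b ∧ Squarefree (dsc a b))).card : ℝ) := by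
  intro a h3 ε hε
  obtain ⟨Y₀, hY₀⟩ := t_FINAe hMAI hLOC hCND hEUL hDEN a h3 ε hε
  refine ⟨Y₀, fun Y hY => ?_⟩
  obtain ⟨F, hF⟩ : ∃ F : Finset ℤ, F = (Icc (-(Y : ℤ)) Y).filter (fun b => 0 < dsc a b ∧ Squarefree (dsc a b)) := ⟨_, rfl⟩
  choose! Sb hSb1 hSb2 using fun b (hb : b ∈ F) => hRNK a b (by
    rw [hF, mem_filter] at hb
    exact hb.2.1) (by
    rw [hF, mem_filter] at hb
    exact hb.2.2)
  have h1 := hY₀ Y hY Sb (by rw [← hF]; exact hSb2)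
  rw [← hF] at h1 ⊢
  have h2 : ∑ b ∈ F, (2 : ℝ) ^ Module.finrank ℤ (crv a b).toAffine.Point ≤ ∑ b ∈ F, (((Sb b).card : ℝ) + 1) :=
    sum_le_sum fun b hb => by exact_mod_cast hSb1 b hb
  rw [sum_add_distrib, sum_const, nsmul_eq_mul, mul_one] at h2
  linarith

/-- **FINS** -/
theorem t_FINSe (hRNS : S_RNSe) (hMAI : S_MAIn) (hLOC : S_LOCe) (hCND : S_CNDe) (hEUL : S_EUL) (hDEN : S_DENe) :
    ∀ a : ℤ, ¬ (3 : ℤ) ∣ a → (∀ b : ℤ, 0 < dsc a b → Squarefree (dsc a b) → Finite (Sl a b)) ∧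
      ∀ ε : ℝ, 0 < ε → ∃ Y₀ : ℕ, ∀ Y ≥ Y₀,
        ∑ b ∈ (Icc (-(Y : ℤ)) Y).filter (fun b => 0 < dsc a b ∧ Squarefree (dsc a b)), (Nat.card (Sl a b) : ℝ) ≤
          (3 + ε) * (((Icc (-(Y : ℤ)) Y).filter (fun b => 0 < dsc a b ∧ Squarefree (dsc a b))).card : ℝ) := by
  intro a h3
  have hfin : ∀ b : ℤ, 0 < dsc a b → Squarefree (dsc a b) → Finite (Sl a b) := by
    intro b hpos hb
    obtain ⟨Y₀, hY₀⟩ := t_FINAe hMAI hLOC hCND hEUL hDEN a h3 1 one_pos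
    obtain ⟨Y, hY⟩ : ∃ Y : ℕ, Y = Y₀ + b.natAbs := ⟨_, rfl⟩
    obtain ⟨F, hF⟩ : ∃ F : Finset ℤ, F = (Icc (-(Y : ℤ)) Y).filter (fun b => 0 < dsc a b ∧ Squarefree (dsc a b)) := ⟨_, rfl⟩
    have hbF : b ∈ F := by
      rw [hF, mem_filter, mem_Icc]
      refine ⟨?_, hpos, hb⟩
      omega
    obtain ⟨N, hN⟩ := exists_nat_ge ((2 + 1) * (F.card : ℝ))
    apply finite_of_bound (N := N + 1)
    intro T
    obtain ⟨U, hUc, hU1, hU2⟩ := reps a b T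
    obtain ⟨S, hS1, hS2⟩ := hRNS a b hpos hb U hU1 hU2
    have h1 := hY₀ Y (by omega) (fun b' => if b' = b then S else ∅) (by
      intro b' _ B hB
      by_cases he : b' = b
      · simp only [he, if_true] at hB ⊢
        exact hS2 B hB
      · simp only [he, if_false] at hB
        exact absurd hB (Finset.notMem_empty _))
    rw [← hF] at h1
    have h2 : (S.card : ℝ) ≤ ∑ b' ∈ F, (((if b' = b then S else ∅ : Finset (Tup ℤ)).card : ℕ) : ℝ) := by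
      have := Finset.single_le_sum (f := fun b' => (((if b' = b then S else ∅ : Finset (Tup ℤ)).card : ℕ) : ℝ))
        (fun i _ => Nat.cast_nonneg _) hbF
      simpa using this
    have h4 : (S.card : ℝ) ≤ N := h2.trans (h1.trans hN)
    have h5 : S.card ≤ N := by exact_mod_cast h4
    omega
  refine ⟨hfin, fun ε hε => ?_⟩
  obtain ⟨Y₀, hY₀⟩ := t_FINAe hMAI hLOC hCND hEUL hDEN a h3 ε hε
  refine ⟨Y₀, fun Y hY => ?_⟩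
  obtain ⟨F, hF⟩ : ∃ F : Finset ℤ, F = (Icc (-(Y : ℤ)) Y).filter (fun b => 0 < dsc a b ∧ Squarefree (dsc a b)) := ⟨_, rfl⟩
  have hFm : ∀ b ∈ F, 0 < dsc a b ∧ Squarefree (dsc a b) := by
    intro b hb
    rw [hF, mem_filter] at hb
    exact hb.2
  have key : ∀ b : ℤ, b ∈ F → ∃ S : Finset (Tup ℤ), Nat.card (Sl a b) ≤ S.card + 1 ∧
      ∀ B ∈ S, B.x ≠ 0 ∧ chA B = a ∧ chB B = b ∧ Red B ∧ Sol8 B := by
    intro b hb
    haveI := hfin b (hFm b hb).1 (hFm b hb).2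
    haveI := Fintype.ofFinite (Sl a b)
    obtain ⟨U, hUc, hU1, hU2⟩ := reps a b Finset.univ
    obtain ⟨S, hS1, hS2⟩ := hRNS a b (hFm b hb).1 (hFm b hb).2 U hU1 hU2
    refine ⟨S, ?_, hS2⟩
    rw [Nat.card_eq_fintype_card, ← Finset.card_univ, ← hUc]
    exact hS1
  choose! Sb hSb1 hSb2 using key
  have h1 := hY₀ Y hY Sb (by rw [← hF]; exact hSb2)
  rw [← hF] at h1 ⊢
  have h2 : ∑ b ∈ F, (Nat.card (Sl a b) : ℝ) ≤ ∑ b ∈ F, (((Sb b).card : ℝ) + 1) :=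
    sum_le_sum fun b hb => by exact_mod_cast hSb1 b hb
  rw [sum_add_distrib, sum_const, nsmul_eq_mul, mul_one] at h2
  linarith

end Pool.Agent.L0h45.AV
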