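import Pool.Agent.L0h45.AV.Stm4
import Pool.Agent.L0h55.AV.S8S

/-!
# AV: SL8e
-/

set_option autoImplicit false
set_option linter.all false

namespace Pool.Agent.L0h45.AV

theorem t_SL8e : S_SL8e := by
  intro B s t n hst h
  refine Pool.Agent.L0h55.AV.sl8_mod B s t n 0 ?_ (by rw [h]; ring)
  rcases Int.even_or_odd s with hs | hs
  · rcases Int.even_or_odd t with ht | ht
    · have h2 : IsUnit (2 : ℤ) := hst.isUnit_of_dvd' hs.two_dvd ht.two_dvd
      rw [Int.isUnit_iff] at h2
      omega
    · exact Or.inr ht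
  · exact Or.inl hs

end Pool.Agent.L0h45.AV
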