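import Pool.Agent.L0h45.AV.Asm
import Pool.Agent.L0h45.AV.Fin4
import Pool.Agent.L0h45.AV.Sl8e
import Pool.Agent.L0h28.AV.RDXn
import Pool.Agent.L0h56.AV.RGPn
import Pool.Agent.L0h57.AV.UNIn
import Pool.Agent.L0h60.AV.MAIn
import Pool.Agent.L0h71.AV.CUSn
import Pool.Agent.L0h75.AV.PELLn
import Pool.Agent.L0h81.AV.PARn
import Pool.Agent.L0h84.AV.REXn
import Pool.Agent.L0h89.AV.BDSn
import Pool.Agent.L0h39.AV.NBHn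
import Pool.Agent.L0h19.AV.CNDe
import Pool.Agent.L0h23.AV.SE2e
import Pool.Agent.L0h29.AV.HENe
import Pool.Agent.L0h34.AV.IRRe
import Pool.Agent.L0h6.AV.LOCe
import Pool.Agent.L0h6.AV.L8e
import Pool.Agent.L0h60.AV.SEVe
import Pool.Agent.L0h66.AV.RNKe
import Pool.Agent.L0h89.AV.RNSe
import Pool.Agent.L0h60.AV.DENe
import Pool.Agent.L0h41.AV.GLRe
import Pool.Agent.L0h41.AV.FARe
import Pool.Agent.L0h45.AV.S8Se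

/-!
# AV: assembly, every `a` prime to `3`
-/

set_option autoImplicit false
set_option linter.all false

open scoped Classical

namespace Pool.Agent.L0h45.AV

open Pool.Agent.N922.PQ (dsc)

theorem cusn : S_CUSn :=
  Pool.Agent.L0h71.AV.CUSn.t_CUSn
    (Pool.Agent.L0h45.LR.t_BX0 (Pool.Agent.L0h50.VL.v6 Pool.Agent.L0h83.VL.v2 Pool.Agent.L0h85.VL.t_V3 Pool.Agent.L0h85.VL.t_V4))
    Pool.Agent.L0h89.AV.t_BDSn Pool.Agent.L0h57.AV.t_UNIn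

theorem rgpn : S_RGPn :=
  Pool.Agent.L0h56.AV.t_RGPn Pool.Agent.L0h89.AV.t_BDSn cel Pool.Agent.L0h85.AV.COV.t_COV vol Pool.Agent.L0h39.AV.t_NBHn

theorem main : S_MAIn :=
  Pool.Agent.L0h60.AV.MAIn.t_MAIn Pool.Agent.L0h89.AV.t_BDSn cusn
    (Pool.Agent.L0h83.LR.t_TRV Pool.Agent.L0h83.VL.v2 Pool.Agent.L0h85.VL.t_V3 Pool.Agent.L0h85.VL.t_V4) rgpn

theorem rexn : S_REXn :=
  Pool.Agent.L0h84.AV.REXn.t_REXn Pool.Agent.N400.PQSD.sd (Pool.Agent.N227.PQ.det Pool.Agent.N849.PQ.int)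
    Pool.Agent.N592.PQ.nrm

theorem rdxn : S_RDXn := Pool.Agent.L0h28.AV.t_RDXn Pool.Agent.L0h81.AV.t_PARn

theorem loc_e : S_LOCe :=
  Pool.Agent.L0h6.AV.t_LOCe Pool.Agent.L0h45.AV.t_CRT
    (Pool.Agent.L0h52.AV.t_LP2 Pool.Agent.L0h48.AV.t_LPU Pool.Agent.L0h63.AV.t_LPN) Pool.Agent.L0h93.AV.L38.t_L3
    Pool.Agent.L0h6.AV.t_L8e

theorem den_e : S_DENe := Pool.Agent.L0h60.AV.t_DENe Pool.Agent.L0h75.AV.t_PELLn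

theorem glr_e : S_GLRe := Pool.Agent.L0h41.AV.t_GLRe (Pool.Agent.L0h41.AV.t_FARe Pool.Agent.L0h29.AV.t_HENe)

theorem rnk_e : S_RNKe :=
  Pool.Agent.L0h66.AV.t_RNKe Pool.Agent.L0h34.AV.t_IRRe rdxn Pool.Agent.L0h26.AV.t_EVP rexn Pool.Agent.L0h23.AV.t_RLM
    Pool.Agent.L0h23.AV.t_RLI rlc t_SQN t_SL8e

theorem rns_e : S_RNSe :=
  Pool.Agent.L0h89.AV.t_RNSe Pool.Agent.L0h34.AV.t_IRRe rdxn rexn Pool.Agent.L0h23.AV.t_RLM Pool.Agent.L0h23.AV.t_RLI rlc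
    (Pool.Agent.L0h60.AV.t_SEVe glr_e Pool.Agent.N922.PQ.parts.loc1 Pool.Agent.N922.PQ.parts.lie Pool.Agent.L0h10.AV.t_LO3)
    (Pool.Agent.L0h23.AV.t_SE2e glr_e Pool.Agent.N922.PQ.parts.emb Pool.Agent.N922.PQ.parts.tw2)
    t_S8Se Pool.Agent.L0h85.AV.SBM.t_SBM Pool.Agent.N922.PQ.parts.gb Pool.Agent.N922.PQ.parts.gn
    Pool.Agent.N922.PQ.parts.gt

/-- the average of `2 ^ rank` -/
theorem main_rank_e : ∀ a : ℤ, ¬ (3 : ℤ) ∣ a → ∀ ε : ℝ, 0 < ε → ∃ Y₀ : ℕ, ∀ Y ≥ Y₀,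
    ∑ b ∈ (Finset.Icc (-(Y : ℤ)) Y).filter (fun b => 0 < dsc a b ∧ Squarefree (dsc a b)),
      (2 : ℝ) ^ Module.finrank ℤ (Pool.Agent.L0h45.AR.crv a b).toAffine.Point ≤
    (3 + ε) * (((Finset.Icc (-(Y : ℤ)) Y).filter (fun b => 0 < dsc a b ∧ Squarefree (dsc a b))).card : ℝ) :=
  t_FINe rnk_e main loc_e Pool.Agent.L0h19.AV.t_CNDe Pool.Agent.L0h24.AV.t_EUL den_e

/-- the average size of the 2-Selmer group -/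
theorem main_sel_e : ∀ a : ℤ, ¬ (3 : ℤ) ∣ a →
    (∀ b : ℤ, 0 < dsc a b → Squarefree (dsc a b) → Finite (Sl a b)) ∧
    ∀ ε : ℝ, 0 < ε → ∃ Y₀ : ℕ, ∀ Y ≥ Y₀,
      ∑ b ∈ (Finset.Icc (-(Y : ℤ)) Y).filter (fun b => 0 < dsc a b ∧ Squarefree (dsc a b)), (Nat.card (Sl a b) : ℝ) ≤
        (3 + ε) * (((Finset.Icc (-(Y : ℤ)) Y).filter (fun b => 0 < dsc a b ∧ Squarefree (dsc a b))).card : ℝ) :=
  t_FINSe rns_e main loc_e Pool.Agent.L0h19.AV.t_CNDe Pool.Agent.L0h24.AV.t_EUL den_e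

end Pool.Agent.L0h45.AV
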