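import Pool.Agent.L0h45.AV.Fin

/-!
# AV: consequences
-/

set_option autoImplicit false
set_option linter.all false

open Finset Filter Topology
open scoped Classical

namespace Pool.Agent.L0h45.AV

open Pool.Agent.N922.PQ (dsc)
open Pool.Agent.L0h45.AR (crv)

theorem two_pow_ge (n : ℕ) : (1 : ℝ) + n ≤ (2 : ℝ) ^ n := by
  induction n with
  | zero => simp
  | succ n ih =>
    rw [pow_succ]
    push_cast
    have : (0 : ℝ) ≤ n := Nat.cast_nonneg n
    linarith

theorem rank_le (n : ℕ) : (n : ℝ) ≤ (2 : ℝ) ^ n / 2 := by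
  rcases n with _ | n
  · norm_num
  · have := two_pow_ge n
    rw [pow_succ]
    push_cast
    linarith

/-- the consequences for the average and the distribution -/
theorem cor (rk : ℤ → ℕ) (F : Finset ℤ) (ε : ℝ) (hε : 0 < ε)
    (h : ∑ b ∈ F, (2 : ℝ) ^ rk b ≤ (3 + ε) * (F.card : ℝ)) :
    ∑ b ∈ F, (rk b : ℝ) ≤ (3 / 2 + ε) * (F.card : ℝ) ∧
    (∀ r : ℕ, ((2 : ℝ) ^ r - 1) * ((F.filter fun b => r ≤ rk b).card : ℝ) ≤ (2 + ε) * (F.card : ℝ)) ∧
    (1 / 3 - ε) * (F.card : ℝ) ≤ ((F.filter fun b => rk b ≤ 1).card : ℝ) := by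
  have hF : (0 : ℝ) ≤ F.card := Nat.cast_nonneg _
  have hr : ∀ r : ℕ, ((2 : ℝ) ^ r - 1) * ((F.filter fun b => r ≤ rk b).card : ℝ) ≤ (2 + ε) * (F.card : ℝ) := by
    intro r
    have h1 : ∑ b ∈ F, ((2 : ℝ) ^ rk b - 1) ≤ (2 + ε) * (F.card : ℝ) := by
      rw [sum_sub_distrib, sum_const, nsmul_eq_mul, mul_one]
      linarith
    refine le_trans ?_ h1
    calc ((2 : ℝ) ^ r - 1) * ((F.filter fun b => r ≤ rk b).card : ℝ)
        = ∑ b ∈ F.filter (fun b => r ≤ rk b), ((2 : ℝ) ^ r - 1) := by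
          rw [sum_const, nsmul_eq_mul, mul_comm]
      _ ≤ ∑ b ∈ F.filter (fun b => r ≤ rk b), ((2 : ℝ) ^ rk b - 1) := by
          refine sum_le_sum fun b hb => ?_
          have : (2 : ℝ) ^ r ≤ 2 ^ rk b := pow_le_pow_right₀ (by norm_num) (mem_filter.mp hb).2
          linarith
      _ ≤ ∑ b ∈ F, ((2 : ℝ) ^ rk b - 1) := by
          refine sum_le_sum_of_subset_of_nonneg (filter_subset _ _) fun b _ _ => ?_
          have : (1 : ℝ) ≤ 2 ^ rk b := one_le_pow₀ (by norm_num)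
          linarith
  refine ⟨?_, hr, ?_⟩
  · calc ∑ b ∈ F, (rk b : ℝ) ≤ ∑ b ∈ F, (2 : ℝ) ^ rk b / 2 := sum_le_sum fun b _ => rank_le _
      _ = (∑ b ∈ F, (2 : ℝ) ^ rk b) / 2 := by rw [sum_div]
      _ ≤ (3 + ε) * (F.card : ℝ) / 2 := by gcongr
      _ ≤ (3 / 2 + ε) * (F.card : ℝ) := by nlinarith
  · have h2 := hr 2
    have h3 : (F.filter fun b => rk b ≤ 1).card + (F.filter fun b => 2 ≤ rk b).card = F.card := by
      have := card_filter_add_card_filter_not (s := F) (fun b => rk b ≤ 1)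
      rw [← this]
      congr 2
      ext b
      simp only [mem_filter]
      constructor
      · rintro ⟨h, h'⟩
        exact ⟨h, by omega⟩
      · rintro ⟨h, h'⟩
        exact ⟨h, by omega⟩
    have h4 : ((F.filter fun b => rk b ≤ 1).card : ℝ) + ((F.filter fun b => 2 ≤ rk b).card : ℝ) = F.card := by
      exact_mod_cast h3
    norm_num at h2
    nlinarith

end Pool.Agent.L0h45.AV
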