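import Pool.Agent.L0h45.AV.Stm

/-!
# AV: the average of `2 ^ rank`
-/

set_option autoImplicit false
set_option linter.all false

open Finset Filter Topology
open scoped Classical

namespace Pool.Agent.L0h45.AV

open Pool.Agent.N874.PP (Tup chA chB gq tau Ev)
open Pool.Agent.N922.PQ (dsc IsCub JJ Ov)
open Pool.Agent.L0h45.LR (tn Bx Cgr)
open Pool.Agent.L0h45.AR (crv)

/-- cubes -/
theorem cubes (δ : ℝ) (hδ : 0 < δ) (N₁ : ℕ) : ∃ Y₀ : ℕ, ∀ Y ≥ Y₀, ∃ X ≥ N₁, Y ≤ X ^ 3 ∧ ((X : ℝ)) ^ 3 ≤ (1 + δ) * Y := by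
  obtain ⟨m₀, hm₀⟩ := exists_nat_ge (7 / δ)
  refine ⟨(m₀ + N₁ + 2) ^ 3 + 1, fun Y hY => ?_⟩
  have hex : ∃ X : ℕ, Y ≤ X ^ 3 := ⟨Y, by
    rcases Nat.eq_zero_or_pos Y with h | h
    · simp [h]
    · calc Y = Y ^ 1 := (pow_one Y).symm
        _ ≤ Y ^ 3 := Nat.pow_le_pow_right h (by norm_num)⟩
  obtain ⟨X, hX⟩ : ∃ X, X = Nat.find hex := ⟨_, rfl⟩
  have h1 : Y ≤ X ^ 3 := hX ▸ Nat.find_spec hex
  have h2 : m₀ + N₁ + 2 < X := by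
    by_contra h
    push Not at h
    have := Nat.pow_le_pow_left h 3
    omega
  have h3 : (X - 1) ^ 3 < Y := by
    have := Nat.find_min hex (m := X - 1) (by omega)
    omega
  refine ⟨X, by omega, h1, ?_⟩
  obtain ⟨m, rfl⟩ : ∃ m, X = m + 1 := ⟨X - 1, by omega⟩
  have h4 : m ^ 3 < Y := by simpa using h3
  have h5 : (m : ℝ) ^ 3 ≤ Y := by exact_mod_cast h4.le
  have h6 : 7 / δ ≤ m := by
    refine hm₀.trans ?_
    exact_mod_cast (by omega : m₀ ≤ m)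
  have h7 : (7 : ℝ) ≤ δ * m := by
    rw [div_le_iff₀ hδ] at h6
    linarith
  have h8 : (1 : ℝ) ≤ m := by exact_mod_cast (by omega : 1 ≤ m)
  push_cast
  have h9 : ((m : ℝ) + 1) ^ 3 ≤ m ^ 3 + 7 * m ^ 2 := by nlinarith [sq_nonneg ((m : ℝ) - 1)]
  have h10 : 7 * (m : ℝ) ^ 2 ≤ δ * m ^ 3 := by
    calc 7 * (m : ℝ) ^ 2 ≤ (δ * m) * m ^ 2 := by gcongr
      _ = δ * m ^ 3 := by ring
  calc ((m : ℝ) + 1) ^ 3 ≤ m ^ 3 + δ * m ^ 3 := h9.trans (by linarith)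
    _ = (1 + δ) * m ^ 3 := by ring
    _ ≤ (1 + δ) * Y := by gcongr

theorem Bo_finite (M : ℕ) : (Bo M).Finite := by
  have h : Set.InjOn (fun B : Tup ℤ => (B.x, B.y, B.c, B.z, B.w)) (Bo M) := by
    rintro ⟨x, y, c, z, w⟩ _ ⟨x', y', c', z', w'⟩ _ h
    simp only [Prod.mk.injEq] at h
    obtain ⟨rfl, rfl, rfl, rfl, rfl⟩ := h
    rfl
  refine Set.Finite.of_finite_image (s := Bo M) ?_ h
  refine ((Finset.Ico (0 : ℤ) M ×ˢ Finset.Ico (0 : ℤ) M ×ˢ Finset.Ico (0 : ℤ) M ×ˢ Finset.Ico (0 : ℤ) M ×ˢ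
    Finset.Ico (0 : ℤ) M).finite_toSet).subset ?_
  rintro _ ⟨B, hB, rfl⟩
  simp only [Bo, Set.mem_setOf_eq] at hB
  simp only [coe_product, Set.mem_prod, coe_Ico, Set.mem_Ico]
  tauto

theorem chA_congr {M : ℤ} {β B : Tup ℤ} (hx : M ∣ B.x - β.x) (hy : M ∣ B.y - β.y) (hc : M ∣ B.c - β.c)
    (hz : M ∣ B.z - β.z) (hw : M ∣ B.w - β.w) : M ∣ chA B - chA β ∧ M ∣ chB B - chB β := by
  obtain ⟨x, hx⟩ := hx
  obtain ⟨y, hy⟩ := hy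
  obtain ⟨c, hc⟩ := hc
  obtain ⟨z, hz⟩ := hz
  obtain ⟨w, hw⟩ := hw
  have ex : B.x = β.x + M * x := by linarith
  have ey : B.y = β.y + M * y := by linarith
  have ec : B.c = β.c + M * c := by linarith
  have ez : B.z = β.z + M * z := by linarith
  have ew : B.w = β.w + M * w := by linarith
  have hmod : ∀ u v : ℤ, M ∣ (u + M * v) - u := fun u v => ⟨v, by ring⟩
  constructor
  · rw [← Int.modEq_iff_dvd]
    unfold chA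
    rw [ex, ey, ec, ez, ew]
    have m : ∀ u v : ℤ, u ≡ u + M * v [ZMOD M] := fun u v => by
      rw [Int.modEq_iff_dvd]
      exact hmod u v
    exact Int.ModEq.sub (Int.ModEq.sub (Int.ModEq.mul_left _ ((m _ _).pow 2))
      (Int.ModEq.mul (Int.ModEq.mul_left _ (m _ _)) (m _ _))) (Int.ModEq.mul (m _ _) (m _ _))
  · rw [← Int.modEq_iff_dvd]
    unfold chB
    rw [ex, ey, ec, ez, ew]
    have m : ∀ u v : ℤ, u ≡ u + M * v [ZMOD M] := fun u v => by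
      rw [Int.modEq_iff_dvd]
      exact hmod u v
    refine Int.ModEq.sub (Int.ModEq.sub (Int.ModEq.sub (Int.ModEq.add (Int.ModEq.mul_left _ ((m _ _).pow 3)) ?_) ?_) ?_) ?_
    · exact Int.ModEq.mul (Int.ModEq.mul (Int.ModEq.mul_left _ (m _ _)) (m _ _)) (m _ _)
    · exact Int.ModEq.mul (m _ _) ((m _ _).pow 2)
    · exact Int.ModEq.mul (m _ _) ((m _ _).pow 2)
    · exact Int.ModEq.mul (Int.ModEq.mul (Int.ModEq.mul_left _ (m _ _)) (m _ _)) (m _ _)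

theorem sol8_congr {β B : Tup ℤ} (hx : (8 : ℤ) ∣ B.x - β.x) (hy : (8 : ℤ) ∣ B.y - β.y) (hc : (8 : ℤ) ∣ B.c - β.c)
    (hz : (8 : ℤ) ∣ B.z - β.z) (hw : (8 : ℤ) ∣ B.w - β.w) (h : Sol8 B) : Sol8 β := by
  unfold Sol8 at h ⊢
  omega

theorem MZ_pos (Z : ℕ) : 1 ≤ MZ Z := by
  unfold MZ
  have : 0 < ∏ p ∈ (Icc 5 Z).filter Nat.Prime, p ^ 2 := by
    apply Finset.prod_pos
    intro p hp
    exact pow_pos (mem_filter.mp hp).2.pos 2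
  omega

theorem MZ_24 (Z : ℕ) : (24 : ℤ) ∣ (MZ Z : ℤ) := by
  unfold MZ
  push_cast
  exact Dvd.intro _ rfl

theorem MZ_p {Z p : ℕ} (hp : p.Prime) (h5 : 5 ≤ p) (hZ : p ≤ Z) : (p : ℤ) ^ 2 ∣ (MZ Z : ℤ) := by
  have h : p ^ 2 ∣ MZ Z := by
    unfold MZ
    apply Dvd.dvd.mul_left
    exact Finset.dvd_prod_of_mem (fun p : ℕ => p ^ 2) (mem_filter.mpr ⟨mem_Icc.mpr ⟨h5, hZ⟩, hp⟩)
  exact_mod_cast h

/-- a squarefree discriminant -/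
theorem al_of_sqfree {Z : ℕ} {a b : ℤ} (h : Squarefree (dsc a b)) : Al Z a b := by
  refine ⟨?_, fun p hp _ _ hd => ?_⟩
  · by_contra hb
    rw [Int.not_odd_iff_even] at hb
    obtain ⟨k, hk⟩ := hb
    have h2 : (2 : ℤ) * 2 ∣ dsc a b := ⟨a ^ 3 + 27 * k ^ 2, by unfold dsc; rw [hk]; ring⟩
    have := h 2 h2
    rw [Int.isUnit_iff] at this
    omega
  · have h2 : (p : ℤ) * p ∣ dsc a b := by rwa [← sq]
    have := h (p : ℤ) h2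
    rw [Int.isUnit_iff] at this
    have := hp.two_le
    omega

theorem al_congr {Z : ℕ} {a b b' : ℤ} (hd : (MZ Z : ℤ) ∣ b - b') (h : Al Z a b) : Al Z a b' := by
  refine ⟨?_, fun p hp h5 hZ hd' => h.2 p hp h5 hZ ?_⟩
  · have h1 := h.1
    have h24 := (MZ_24 Z).trans hd
    rw [Int.odd_iff] at h1 ⊢
    omega
  · have h1 := (MZ_p hp h5 hZ).trans hd
    have h2 : dsc a b = dsc a b' + 27 * (b - b') * (b + b') := by unfold dsc; ring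
    rw [h2]
    exact dvd_add hd' (Dvd.dvd.mul_right (Dvd.dvd.mul_left h1 _) _)

/-- the classes -/
def Ws (Z : ℕ) (a : ℤ) : Set (Tup ℤ) := {β | β ∈ Bo (MZ Z) ∧ (MZ Z : ℤ) ∣ chA β - a ∧
  ∃ b ∈ (Ico (0 : ℤ) (MZ Z)).filter (fun b => Al Z a b), (MZ Z : ℤ) ∣ chB β - b ∧ Sol8 β}

theorem Ws_finite (Z : ℕ) (a : ℤ) : (Ws Z a).Finite := (Bo_finite (MZ Z)).subset fun _ h => h.1

theorem Ws_card (hLOC : S_LOC) {Z : ℕ} (hZ : 3 ≤ Z) {a : ℤ} (ho : Odd a) (h3 : ¬ (3 : ℤ) ∣ a) :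
    (((Ws_finite Z a).toFinset.card : ℕ) : ℝ) ≤ (((Ico (0 : ℤ) (MZ Z)).filter (fun b => Al Z a b)).card : ℝ) *
      ((MZ Z : ℝ) ^ 3 / 2 * ∏ p ∈ (Icc 3 Z).filter Nat.Prime, (1 - 1 / (p : ℝ) ^ 2)) := by
  have hf : ∀ b : ℤ, ({B | B ∈ Bo (MZ Z) ∧ (MZ Z : ℤ) ∣ chA B - a ∧ (MZ Z : ℤ) ∣ chB B - b ∧ Sol8 B}).Finite :=
    fun b => (Bo_finite (MZ Z)).subset fun _ h => h.1
  have hsub : (Ws_finite Z a).toFinset ⊆
      ((Ico (0 : ℤ) (MZ Z)).filter (fun b => Al Z a b)).biUnion (fun b => (hf b).toFinset) := by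
    intro β hβ
    rw [Set.Finite.mem_toFinset] at hβ
    obtain ⟨h1, h2, b, hb, h4, h5⟩ := hβ
    rw [mem_biUnion]
    refine ⟨b, hb, ?_⟩
    rw [Set.Finite.mem_toFinset]
    exact ⟨h1, h2, h4, h5⟩
  have h1 := (card_le_card hsub).trans card_biUnion_le
  have h2 : ((∑ b ∈ (Ico (0 : ℤ) (MZ Z)).filter (fun b => Al Z a b), (hf b).toFinset.card : ℕ) : ℝ) ≤
      ∑ b ∈ (Ico (0 : ℤ) (MZ Z)).filter (fun b => Al Z a b),
        ((MZ Z : ℝ) ^ 3 / 2 * ∏ p ∈ (Icc 3 Z).filter Nat.Prime, (1 - 1 / (p : ℝ) ^ 2)) := by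
    push_cast
    refine sum_le_sum fun b hb => ?_
    have h3' := hLOC Z hZ a b ho h3 (mem_filter.mp hb).2
    rwa [Set.ncard_eq_toFinset_card _ (hf b)] at h3'
  rw [sum_const, nsmul_eq_mul] at h2
  exact (by exact_mod_cast h1 : (((Ws_finite Z a).toFinset.card : ℕ) : ℝ) ≤ _).trans h2

theorem Ws_mem {Z : ℕ} {a : ℤ} {B : Tup ℤ} (hA : chA B = a) (hb : Squarefree (dsc a (chB B))) (h8 : Sol8 B) :
    ∃ β ∈ (Ws_finite Z a).toFinset, Cgr (MZ Z) β B := by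
  have hM : (0 : ℤ) < MZ Z := by exact_mod_cast MZ_pos Z
  have hdv : ∀ u : ℤ, (MZ Z : ℤ) ∣ u - u % (MZ Z : ℤ) := fun u => Int.dvd_self_sub_emod
  have hlo : ∀ u : ℤ, 0 ≤ u % (MZ Z : ℤ) := fun u => Int.emod_nonneg u hM.ne'
  have hhi : ∀ u : ℤ, u % (MZ Z : ℤ) < MZ Z := fun u => Int.emod_lt_of_pos u hM
  obtain ⟨β, hβ⟩ : ∃ β : Tup ℤ, β = ⟨B.x % (MZ Z : ℤ), B.y % (MZ Z : ℤ), B.c % (MZ Z : ℤ), B.z % (MZ Z : ℤ),
    B.w % (MZ Z : ℤ)⟩ := ⟨_, rfl⟩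
  have hx : (MZ Z : ℤ) ∣ B.x - β.x := by rw [hβ]; exact hdv _
  have hy : (MZ Z : ℤ) ∣ B.y - β.y := by rw [hβ]; exact hdv _
  have hc : (MZ Z : ℤ) ∣ B.c - β.c := by rw [hβ]; exact hdv _
  have hz : (MZ Z : ℤ) ∣ B.z - β.z := by rw [hβ]; exact hdv _
  have hw : (MZ Z : ℤ) ∣ B.w - β.w := by rw [hβ]; exact hdv _
  obtain ⟨hcA, hcB⟩ := chA_congr hx hy hc hz hw
  have h8M : (8 : ℤ) ∣ (MZ Z : ℤ) := (by norm_num : (8 : ℤ) ∣ 24).trans (MZ_24 Z)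
  refine ⟨β, ?_, ⟨hx, hy, hc, hz, hw⟩⟩
  rw [Set.Finite.mem_toFinset]
  refine ⟨?_, ?_, chB B % (MZ Z : ℤ), ?_, ?_, ?_⟩
  · rw [hβ]
    exact ⟨hlo _, hhi _, hlo _, hhi _, hlo _, hhi _, hlo _, hhi _, hlo _, hhi _⟩
  · rw [← hA, ← dvd_neg, neg_sub]
    exact hcA
  · rw [mem_filter, mem_Ico]
    exact ⟨⟨hlo _, hhi _⟩, al_congr (hdv _) (al_of_sqfree hb)⟩
  · have h1 := hdv (chB B)
    have e : chB β - chB B % (MZ Z : ℤ) = (chB B - chB B % (MZ Z : ℤ)) - (chB B - chB β) := by ring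
    rw [e]
    exact dvd_sub h1 hcB
  · exact sol8_congr (h8M.trans hx) (h8M.trans hy) (h8M.trans hc) (h8M.trans hz) (h8M.trans hw) h8

/-- the number of the reduced tuples with squarefree discriminant, soluble at `2` -/
theorem t_FINA (hMAI : S_MAI) (hLOC : S_LOC) (hCND : S_CND) (hEUL : S_EUL) (hDEN : S_DEN) :
    ∀ a : ℤ, 0 < a → Odd a → ¬ (3 : ℤ) ∣ a → ∀ ε : ℝ, 0 < ε → ∃ Y₀ : ℕ, ∀ Y ≥ Y₀, ∀ Sb : ℤ → Finset (Tup ℤ),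
      (∀ b ∈ (Icc (-(Y : ℤ)) Y).filter (fun b => Squarefree (dsc a b)), ∀ B ∈ Sb b,
        B.x ≠ 0 ∧ chA B = a ∧ chB B = b ∧ Red B ∧ Sol8 B) →
      ∑ b ∈ (Icc (-(Y : ℤ)) Y).filter (fun b => Squarefree (dsc a b)), ((Sb b).card : ℝ) ≤
        (2 + ε) * (((Icc (-(Y : ℤ)) Y).filter (fun b => Squarefree (dsc a b))).card : ℝ) := by
  intro a ha ho h3 ε hε
  obtain ⟨⟨c, hc, Y₁, hY₁⟩, hden⟩ := hDEN a ha ho h3
  obtain ⟨η, hη0, hη, hmai⟩ := hMAI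
  obtain ⟨δ, hδ⟩ : ∃ δ : ℝ, δ = min 1 (ε / 80) := ⟨_, rfl⟩
  have hδ0 : 0 < δ := by rw [hδ]; positivity
  have hδ1 : δ ≤ 1 := by rw [hδ]; exact min_le_left _ _
  have hδ2 : δ ≤ ε / 80 := by rw [hδ]; exact min_le_right _ _
  obtain ⟨Z₁, hZ₁⟩ := hEUL δ hδ0
  obtain ⟨Z₂, hZ₂⟩ := hden δ hδ0
  obtain ⟨Z₃, hZ₃⟩ := (eventually_atTop.mp ((tendsto_order.mp hη).2 δ hδ0))
  obtain ⟨Z, hZ⟩ : ∃ Z : ℕ, Z = Z₁ + Z₂ + Z₃ + 3 := ⟨_, rfl⟩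
  have hE := hZ₁ Z (by omega)
  obtain ⟨Y₂, hY₂⟩ := hZ₂ Z (by omega)
  have hηZ := hZ₃ Z (by omega)
  have hZ3 : 3 ≤ Z := by omega
  obtain ⟨hMd, hOk⟩ := hCND Z hZ3
  obtain ⟨X₀, hX₀⟩ := hmai Z (MZ Z) hMd a (c * ε / 4) ha (by positivity)
  obtain ⟨Y₃, hY₃⟩ := cubes δ hδ0 X₀
  refine ⟨Y₁ + Y₂ + Y₃ + 1, fun Y hY Sb hSb2 => ?_⟩
  obtain ⟨X, hXX, hYX, hXY⟩ := hY₃ Y (by omega)
  obtain ⟨F, hF⟩ : ∃ F : Finset ℤ, F = (Icc (-(Y : ℤ)) Y).filter (fun b => Squarefree (dsc a b)) := ⟨_, rfl⟩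
  rw [← hF]
  have hDc := hY₁ Y (by omega)
  have hDd := hY₂ Y (by omega)
  rw [← hF] at hDc hDd
  have hFm : ∀ b ∈ F, |b| ≤ (Y : ℤ) ∧ Squarefree (dsc a b) := by
    intro b hb
    rw [hF, mem_filter, mem_Icc] at hb
    exact ⟨abs_le.mpr hb.1, hb.2⟩
  rw [← hF] at hSb2
  -- the union
  have hcard : (F.biUnion Sb).card = ∑ b ∈ F, (Sb b).card := by
    refine card_biUnion fun b hb b' hb' hne => ?_
    show Disjoint (Sb b) (Sb b')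
    rw [Finset.disjoint_left]
    intro B hB hB'
    exact hne ((hSb2 b hb B hB).2.2.1.symm.trans (hSb2 b' hb' B hB').2.2.1)
  have hmain := hX₀ X hXX (Ws_finite Z a).toFinset (by
    intro β hβ
    rw [Set.Finite.mem_toFinset] at hβ
    obtain ⟨h1, h2, b, hb, h4, -⟩ := hβ
    exact ⟨h1, hOk a b ho h3 (mem_filter.mp hb).2 β h2 h4⟩) (F.biUnion Sb) (by
    intro B hB
    rw [mem_biUnion] at hB
    obtain ⟨b, hb, hB⟩ := hB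
    obtain ⟨h1, h2, h4, h5, h6⟩ := hSb2 b hb B hB
    refine ⟨h1, h2, ?_, h5, Ws_mem h2 (by rw [h4]; exact (hFm b hb).2) h6⟩
    rw [h4]
    exact (hFm b hb).1.trans (by exact_mod_cast hYX))
  have hsum : ∑ b ∈ F, ((Sb b).card : ℝ) = ((F.biUnion Sb).card : ℝ) := by
    rw [hcard]
    push_cast
    rfl
  have hWc := Ws_card hLOC hZ3 ho h3
  -- numbers
  obtain ⟨W, hW⟩ : ∃ W : ℝ, W = (((Ws_finite Z a).toFinset.card : ℕ) : ℝ) := ⟨_, rfl⟩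
  obtain ⟨A, hA⟩ : ∃ A : ℝ, A = (((Ico (0 : ℤ) (MZ Z)).filter (fun b => Al Z a b)).card : ℝ) := ⟨_, rfl⟩
  obtain ⟨P, hP⟩ : ∃ P : ℝ, P = ∏ p ∈ (Icc 3 Z).filter Nat.Prime, (1 - 1 / (p : ℝ) ^ 2) := ⟨_, rfl⟩
  obtain ⟨M, hM⟩ : ∃ M : ℝ, M = (MZ Z : ℝ) := ⟨_, rfl⟩
  obtain ⟨D, hD⟩ : ∃ D : ℝ, D = (F.card : ℝ) := ⟨_, rfl⟩
  obtain ⟨y, hy⟩ : ∃ y : ℝ, y = (Y : ℝ) := ⟨_, rfl⟩
  obtain ⟨x, hx⟩ : ∃ x : ℝ, x = (X : ℝ) ^ 3 := ⟨_, rfl⟩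
  rw [← hW, ← hM, ← hx] at hmain
  rw [← hW, ← hA, ← hM, ← hP] at hWc
  rw [← hP] at hE
  rw [← hD, ← hy] at hDc
  rw [← hA, ← hM, ← hD, ← hy] at hDd
  rw [← hx, ← hy] at hXY
  rw [← hD, hsum]
  have hM1 : 0 < M := by
    rw [hM]
    exact_mod_cast MZ_pos Z
  have hA0 : 0 ≤ A := by rw [hA]; positivity
  have hD0 : 0 ≤ D := by rw [hD]; positivity
  have hy0 : 0 ≤ y := by rw [hy]; positivity
  have hx0 : 0 ≤ x := by rw [hx]; positivity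
  have hpi : 0 < Real.pi ^ 2 := by positivity
  have hpi2 : Real.pi ^ 2 ≤ 12 := by
    have h1 := Real.pi_lt_d2
    have h2 := Real.pi_pos
    nlinarith
  have hP0 : 0 ≤ P := by
    rw [hP]
    refine prod_nonneg fun p hp => ?_
    have h1 : (1 : ℝ) ≤ (p : ℝ) ^ 2 := by
      have : (1 : ℝ) ≤ p := by exact_mod_cast (mem_filter.mp hp).2.one_le
      nlinarith
    have h2 : 1 / (p : ℝ) ^ 2 ≤ 1 := by
      rw [div_le_one (by linarith)]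
      exact h1
    linarith
  -- first step
  have hW0 : 0 ≤ W := by rw [hW]; positivity
  have s1 : (1 + η Z) * (Real.pi ^ 2 * W) / M ^ 4 ≤ (1 + δ) * (Real.pi ^ 2 / 2 * P) * (A / M) := by
    have h1 : (1 + η Z) * (Real.pi ^ 2 * W) / M ^ 4 ≤ (1 + δ) * (Real.pi ^ 2 * (A * (M ^ 3 / 2 * P))) / M ^ 4 := by
      have := hη0 Z
      gcongr
    refine h1.trans (le_of_eq ?_)
    field_simp
  have s2 : Real.pi ^ 2 / 2 * P ≤ 4 + 6 * δ := by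
    have h1 : Real.pi ^ 2 / 2 * P ≤ Real.pi ^ 2 / 2 * (8 / Real.pi ^ 2 + δ) := by gcongr
    have h2 : Real.pi ^ 2 / 2 * (8 / Real.pi ^ 2 + δ) = 4 + Real.pi ^ 2 / 2 * δ := by
      field_simp
      ring
    rw [h2] at h1
    have h4 : Real.pi ^ 2 / 2 * δ ≤ 6 * δ := by
      have : Real.pi ^ 2 / 2 ≤ 6 := by linarith
      gcongr
    linarith
  have hAM : 0 ≤ A / M := by positivity
  have s3 : (1 + δ) * (Real.pi ^ 2 / 2 * P) * (A / M) * x ≤ (1 + δ) * (4 + 6 * δ) * ((1 + δ) * ((1 + δ) * D / 2)) := by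
    have h1 : (1 + δ) * (Real.pi ^ 2 / 2 * P) * (A / M) * x ≤
        (1 + δ) * (4 + 6 * δ) * (A / M) * ((1 + δ) * y) := by gcongr
    have h2 : (1 + δ) * (4 + 6 * δ) * (A / M) * ((1 + δ) * y) = (1 + δ) * (4 + 6 * δ) * ((1 + δ) * ((2 * y * A / M) / 2)) := by
      ring
    rw [h2] at h1
    refine h1.trans ?_
    gcongr
  have s4 : (1 + δ) * (4 + 6 * δ) * ((1 + δ) * ((1 + δ) * D / 2)) ≤ (2 + 38 * δ) * D := by
    have h1 : (1 + δ) ^ 3 ≤ 1 + 7 * δ := by nlinarith [mul_nonneg hδ0.le hδ0.le, mul_nonneg hδ0.le (sub_nonneg.mpr hδ1)]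
    have h2 : (1 + δ) * (4 + 6 * δ) * ((1 + δ) * ((1 + δ) * D / 2)) = (1 + δ) ^ 3 * (2 + 3 * δ) * D := by ring
    rw [h2]
    have h4 : (1 + δ) ^ 3 * (2 + 3 * δ) ≤ 2 + 38 * δ := by
      calc (1 + δ) ^ 3 * (2 + 3 * δ) ≤ (1 + 7 * δ) * (2 + 3 * δ) := by gcongr
        _ ≤ 2 + 38 * δ := by nlinarith
    gcongr
  have s5 : c * ε / 4 * x ≤ ε / 2 * D := by
    have h1 : c * ε / 4 * x ≤ c * ε / 4 * ((1 + δ) * y) := by gcongr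
    have h2 : c * ε / 4 * ((1 + δ) * y) ≤ c * ε / 4 * (2 * y) := by
      gcongr
      linarith
    have h4 : c * ε / 4 * (2 * y) = ε / 2 * (c * y) := by ring
    rw [h4] at h2
    refine h1.trans (h2.trans ?_)
    gcongr
  have s6 : ((F.biUnion Sb).card : ℝ) ≤ (2 + 38 * δ) * D + ε / 2 * D := by
    refine hmain.trans ?_
    rw [add_mul]
    refine add_le_add ?_ s5
    refine le_trans ?_ (s3.trans s4)
    gcongr
  have s7 : 38 * δ ≤ ε / 2 := by linarith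
  have s8 : 38 * δ * D ≤ ε / 2 * D := by gcongr
  linarith

/-- **FIN** -/
theorem t_FIN (hRNK : S_RNK) (hMAI : S_MAI) (hLOC : S_LOC) (hCND : S_CND) (hEUL : S_EUL) (hDEN : S_DEN) : S_FIN := by
  intro a ha ho h3 ε hε
  obtain ⟨Y₀, hY₀⟩ := t_FINA hMAI hLOC hCND hEUL hDEN a ha ho h3 ε hε
  refine ⟨Y₀, fun Y hY => ?_⟩
  obtain ⟨F, hF⟩ : ∃ F : Finset ℤ, F = (Icc (-(Y : ℤ)) Y).filter (fun b => Squarefree (dsc a b)) := ⟨_, rfl⟩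
  choose! Sb hSb1 hSb2 using fun b (hb : b ∈ F) => hRNK a b ha ho (by
    rw [hF, mem_filter] at hb
    exact hb.2)
  have h1 := hY₀ Y hY Sb (by rw [← hF]; exact hSb2)
  rw [← hF] at h1 ⊢
  have h2 : ∑ b ∈ F, (2 : ℝ) ^ Module.finrank ℤ (crv a b).toAffine.Point ≤ ∑ b ∈ F, (((Sb b).card : ℝ) + 1) :=
    sum_le_sum fun b hb => by exact_mod_cast hSb1 b hb
  rw [sum_add_distrib, sum_const, nsmul_eq_mul, mul_one] at h2
  linarith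

end Pool.Agent.L0h45.AV
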