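import Pool.Agent.L0h45.AV.Stm2

/-!
# Project AV (helper45), third part: negative `a` as well

The same statements as in `Stm.lean`, with the condition `0 < a` replaced by `0 < 4 a ^ 3 + 27 b ^ 2` (one real zero). Copy and adapt
your file.
-/

set_option autoImplicit false
set_option linter.all false

open Finset IsDedekindDomain NumberField MeasureTheory Filter Topology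
open Pool.Agent.TH115.GD
open scoped Classical

namespace Pool.Agent.L0h45.AV

open Pool.Agent.N874.PP (Tup chA chB gq tau Ev sW)
open Pool.Agent.N922.PQ (dsc IsCub JJ Ov)
open Pool.Agent.L0h45.LR (tn Bx Cgr)
open Pool.Agent.L0h45.AR (crv)

/-- PARn: for `chA > 0` this is PAR; in general: if all zeros of the quartic form are real then
`4 I ^ 3 - J ^ 2 = 27 lead ^ 6 ∏ (rᵢ - rⱼ) ^ 2 ≥ 0`, and `4 I ^ 3 - J ^ 2 = - 110592 (4 chA ^ 3 + 27 chB ^ 2)`. -/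
def S_PARn : Prop := ∀ B : Tup ℝ, B.x ≠ 0 → 0 < 4 * chA B ^ 3 + 27 * chB B ^ 2 →
  ∃ p v θ C S : ℝ, 0 < v ∧ B = Bp p v θ C S

/-- UNIn: `4 A³ + 27 B² = (4 A + 3 θ²) (A + 3 θ²)²` for `B = -θ³ - A θ`, so `C² + S² = 12 θ² + 4 A > 9 θ²` -/
def S_UNIn : Prop := ∀ p v θ C S p' v' θ' C' S' : ℝ, 0 < v → 0 < v' →
  0 < 4 * chA (Bp p v θ C S) ^ 3 + 27 * chB (Bp p v θ C S) ^ 2 →
  Bp p v θ C S = Bp p' v' θ' C' S' → p = p' ∧ v = v'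

/-- BDSn: `|θ| ≤ 2 X` since `|θ| (θ² - X²) ≤ X³`; then `C² + S² ≤ 52 X²` -/
def S_BDSn : Prop := ∀ p v θ C S X : ℝ, FD p v → 0 ≤ X → |chA (Bp p v θ C S)| ≤ X ^ 2 → |chB (Bp p v θ C S)| ≤ X ^ 3 →
  |θ| ≤ 2 * X ∧ |(Bp p v θ C S).x| * v ^ 2 ≤ 72 * X ∧ |(Bp p v θ C S).y| * v ≤ 72 * X ∧ |(Bp p v θ C S).c| ≤ 72 * X ∧
    |(Bp p v θ C S).z| ≤ 72 * X * v ∧ |(Bp p v θ C S).w| ≤ 72 * X * v ^ 2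

/-- RDXn -/
def S_RDXn : Prop := ∀ P : Tup ℤ → Prop,
  (∀ B, P B → P (tau 1 B) ∧ P (tau (-1) B) ∧ P (rf B) ∧ P (sw B)) →
  (∀ B, P B → B.x ≠ 0 ∧ 0 < 4 * chA B ^ 3 + 27 * chB B ^ 2) → ∀ B, P B → ∃ B', P B' ∧ Red B'

/-- CUSn -/
def S_CUSn : Prop := ∃ K : ℝ, 0 < K ∧ ∀ (a : ℤ) (X T : ℕ), |a| ≤ (X : ℤ) ^ 2 → 1 ≤ T → 1 ≤ X →
  ∀ S : Finset (Tup ℤ), (∀ B ∈ S, B.x ≠ 0 ∧ chA B = a ∧ |chB B| ≤ (X : ℤ) ^ 3 ∧ 0 < 4 * a ^ 3 + 27 * chB B ^ 2 ∧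
    ∃ v : ℝ, (T : ℝ) ≤ v ∧ Rd B v) → (S.card : ℝ) ≤ K * (X : ℝ) ^ 3 / T

/-- NBHn -/
def S_NBHn : Prop := ∀ T δ : ℝ, 0 < T → 0 < δ → IsCompact ((fun q => cd (Bq q)) '' Dc T δ) ∧
  ∀ U : Set (Fin 4 → ℝ), IsOpen U → (fun q => cd (Bq q)) '' Dc T δ ⊆ U → ∃ a₀ : ℝ, 0 < a₀ ∧
    ∀ p v θ C S : ℝ, FD p v → v ≤ T → |θ| ≤ 1 + a₀ → |C ^ 2 + S ^ 2 - 12 * θ ^ 2| ≤ a₀ →
      δ ≤ (Bp p v θ C S).x → cd (Bp p v θ C S) ∈ U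

/-- RGPn (`|θ|³ ≤ X³ + |a| |θ|`) -/
def S_RGPn : Prop := ∃ η : ℕ → ℝ, (∀ Z, 0 ≤ η Z) ∧ Tendsto η atTop (𝓝 0) ∧ ∀ Z M : ℕ, Md Z M →
  ∀ (a : ℤ) (T δ ε : ℝ), 0 < T → 0 < δ → 0 < ε → ∃ X₀ : ℝ, ∀ X ≥ X₀, ∀ β : Tup ℤ, Ok M a β →
  ∀ S : Finset (Tup ℤ), (∀ B ∈ S, B.y ≠ 0 ∧ chA B = a ∧ Cgr M β B ∧ |((chB B : ℤ) : ℝ)| ≤ X ^ 3 ∧ δ * X ≤ B.x ∧
    ∃ v : ℝ, v ≤ T ∧ Rd B v) →
  (S.card : ℝ) ≤ ((1 + η Z) * (Real.pi ^ 2 / 2) / (M : ℝ) ^ 4 + ε) * X ^ 3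

/-- MAIn -/
def S_MAIn : Prop := ∃ η : ℕ → ℝ, (∀ Z, 0 ≤ η Z) ∧ Tendsto η atTop (𝓝 0) ∧ ∀ Z M : ℕ, Md Z M →
  ∀ (a : ℤ) (ε : ℝ), 0 < ε → ∃ X₀ : ℕ, ∀ X ≥ X₀, ∀ W : Finset (Tup ℤ), (∀ β ∈ W, β ∈ Bo M ∧ Ok M a β) →
  ∀ S : Finset (Tup ℤ), (∀ B ∈ S, B.x ≠ 0 ∧ chA B = a ∧ |chB B| ≤ (X : ℤ) ^ 3 ∧ 0 < 4 * a ^ 3 + 27 * chB B ^ 2 ∧ Red B ∧
    ∃ β ∈ W, Cgr M β B) →
  (S.card : ℝ) ≤ ((1 + η Z) * (Real.pi ^ 2 * W.card) / (M : ℝ) ^ 4 + ε) * (X : ℝ) ^ 3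

/-- REXn: the form `c₂(x² / α)` takes a positive value as multiplication by `θ` is self-adjoint and not all its eigenvalues are real
(or by a computation over `L ⊗ ℝ = ℝ × ℂ`). Hypotheses: S_SD, S_DET, S_NRM. -/
def S_REXn : Prop := ∀ (L O : Type) [Field L] [NumberField L] [CommRing O] [IsDedekindDomain O]
  [Algebra O L] [IsFractionRing O L] [IsIntegralClosure O ℤ L] (a b : ℤ) (θ : L) (h : IsCub a b θ),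
  0 < dsc a b → Squarefree (dsc a b) → ∀ α : L, α ≠ 0 → IsSquare (Algebra.norm ℚ α) →
  (∀ 𝔓 : HeightOneSpectrum O, Ev 𝔓 α) → ∃ B : Tup ℤ, Rel h α B

/-- RNKn -/
def S_RNKn : Prop := ∀ a b : ℤ, 0 < dsc a b → Odd a → Squarefree (dsc a b) → ∃ S : Finset (Tup ℤ),
  2 ^ Module.finrank ℤ (crv a b).toAffine.Point ≤ S.card + 1 ∧
  ∀ B ∈ S, B.x ≠ 0 ∧ chA B = a ∧ chB B = b ∧ Red B ∧ Sol8 B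

/-- RNSn -/
def S_RNSn : Prop := ∀ a b : ℤ, 0 < dsc a b → Odd a → Squarefree (dsc a b) →
  ∀ U : Finset ((Sep ℚ ≃ₐ[ℚ] Sep ℚ) → Pt (sW (a : ℚ) (b : ℚ)) (Sep ℚ)), (∀ f ∈ U, f ∈ SelZ a b) →
  (∀ f ∈ U, ∀ g ∈ U, f ≠ g → ¬ Coh a b f g) → ∃ S : Finset (Tup ℤ), U.card ≤ S.card + 1 ∧
  ∀ B ∈ S, B.x ≠ 0 ∧ chA B = a ∧ chB B = b ∧ Red B ∧ Sol8 B

/-- PELLn: as `LR.S_PELL`, for `a ≠ 0`, `3 ∤ a` -/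
def S_PELLn : Prop := ∀ (a : ℤ) (ε : ℝ), a ≠ 0 → ¬ (3 : ℤ) ∣ a → 0 < ε → ∃ Y₀ : ℕ, ∀ Y ≥ Y₀,
  (((Icc (-(Y : ℤ)) Y).filter (fun b => ∃ n : ℤ, (Y : ℤ) < n ∧ n ^ 2 ∣ 4 * a ^ 3 + 27 * b ^ 2)).card : ℝ) ≤ ε * Y

/-- DENn: the `b` with positive squarefree discriminant (only finitely many values are not positive) -/
def S_DENn : Prop := ∀ a : ℤ, a ≠ 0 → Odd a → ¬ (3 : ℤ) ∣ a →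
  (∃ c : ℝ, 0 < c ∧ ∃ Y₀ : ℕ, ∀ Y ≥ Y₀,
    c * (Y : ℝ) ≤ (((Icc (-(Y : ℤ)) Y).filter (fun b => 0 < dsc a b ∧ Squarefree (dsc a b))).card : ℝ)) ∧
  ∀ ε : ℝ, 0 < ε → ∃ Z₀ : ℕ, ∀ Z ≥ Z₀, ∃ Y₀ : ℕ, ∀ Y ≥ Y₀,
    2 * (Y : ℝ) * (((Ico (0 : ℤ) (MZ Z)).filter (fun b => Al Z a b)).card : ℝ) / (MZ Z : ℝ) ≤
      (1 + ε) * (((Icc (-(Y : ℤ)) Y).filter (fun b => 0 < dsc a b ∧ Squarefree (dsc a b))).card : ℝ)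

end Pool.Agent.L0h45.AV
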