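import Pool.Agent.L0h45.AV.Stm

/-!
# The tuples modulo `MZ Z`
-/

set_option autoImplicit false

open Finset

namespace Pool.Agent.L0h45.AV

open Pool.Agent.N874.PP (Tup chA chB)
open Pool.Agent.N922.PQ (dsc)
open Pool.Agent.L0h45.LR (Cgr)

/-- the conditions modulo `m` -/
def DDl (a b : ℤ) (m : ℕ) (B : Tup ℤ) : Prop := (m : ℤ) ∣ chA B - a ∧ (m : ℤ) ∣ chB B - b

theorem ch_cgr (m : ℕ) (B B' : Tup ℤ) (h : Cgr m B B') :
    (m : ℤ) ∣ chA B' - chA B ∧ (m : ℤ) ∣ chB B' - chB B := by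
  have hx : ((B.x : ℤ) : ZMod m) = (B'.x : ℤ) := (ZMod.intCast_eq_intCast_iff_dvd_sub _ _ _).mpr h.x
  have hy : ((B.y : ℤ) : ZMod m) = (B'.y : ℤ) := (ZMod.intCast_eq_intCast_iff_dvd_sub _ _ _).mpr h.y
  have hc : ((B.c : ℤ) : ZMod m) = (B'.c : ℤ) := (ZMod.intCast_eq_intCast_iff_dvd_sub _ _ _).mpr h.c
  have hz : ((B.z : ℤ) : ZMod m) = (B'.z : ℤ) := (ZMod.intCast_eq_intCast_iff_dvd_sub _ _ _).mpr h.z
  have hw : ((B.w : ℤ) : ZMod m) = (B'.w : ℤ) := (ZMod.intCast_eq_intCast_iff_dvd_sub _ _ _).mpr h.w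
  constructor
  · apply (ZMod.intCast_eq_intCast_iff_dvd_sub _ _ _).mp
    simp only [chA]
    push_cast
    rw [hx, hy, hc, hz, hw]
  · apply (ZMod.intCast_eq_intCast_iff_dvd_sub _ _ _).mp
    simp only [chB]
    push_cast
    rw [hx, hy, hc, hz, hw]

theorem DDl_cgr (a b : ℤ) (m : ℕ) (B B' : Tup ℤ) (h : Cgr m B B') : DDl a b m B ↔ DDl a b m B' := by
  obtain ⟨h1, h2⟩ := ch_cgr m B B' h
  have e1 : chA B' - a = (chA B' - chA B) + (chA B - a) := by ring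
  have e2 : chB B' - b = (chB B' - chB B) + (chB B - b) := by ring
  simp only [DDl]
  rw [e1, e2, dvd_add_right h1, dvd_add_right h2]

theorem DDl_mul (a b : ℤ) (m n : ℕ) (h : Nat.Coprime m n) (B : Tup ℤ) :
    DDl a b (m * n) B ↔ DDl a b m B ∧ DDl a b n B := by
  have hc : IsCoprime (m : ℤ) (n : ℤ) := Nat.isCoprime_iff_coprime.mpr h
  have key : ∀ x : ℤ, ((m * n : ℕ) : ℤ) ∣ x ↔ (m : ℤ) ∣ x ∧ (n : ℤ) ∣ x := by
    intro x
    rw [Nat.cast_mul]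
    exact ⟨fun hx => ⟨(dvd_mul_right _ _).trans hx, (dvd_mul_left _ _).trans hx⟩,
      fun hx => hc.mul_dvd hx.1 hx.2⟩
  simp only [DDl, key]
  tauto

theorem Sol8_cgr (B B' : Tup ℤ) (h : Cgr 8 B B') : Sol8 B ↔ Sol8 B' := by
  obtain ⟨hx, hy, hc, hz, hw⟩ := h
  simp only [Sol8]
  push_cast at hx hy hc hz hw
  omega

/-- the number of the tuples modulo `m` -/
noncomputable def cn (a b : ℤ) (m : ℕ) : ℕ := {B | B ∈ Bo m ∧ DDl a b m B}.ncard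

theorem cn_one (a b : ℤ) : cn a b 1 ≤ 1 := by
  have h : {B | B ∈ Bo 1 ∧ DDl a b 1 B} ⊆ {(⟨0, 0, 0, 0, 0⟩ : Tup ℤ)} := by
    rintro B ⟨hB, -⟩
    simp only [Bo, Set.mem_setOf_eq, Nat.cast_one] at hB
    obtain ⟨a1, a2, a3, a4, a5, a6, a7, a8, a9, a10⟩ := hB
    rw [Set.mem_singleton_iff]
    ext <;> simp only <;> omega
  calc cn a b 1 ≤ ({(⟨0, 0, 0, 0, 0⟩ : Tup ℤ)} : Set (Tup ℤ)).ncard :=
        Set.ncard_le_ncard h (Set.finite_singleton _)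
    _ = 1 := Set.ncard_singleton _

theorem cn_mul (hC : S_CRT) (a b : ℤ) (m n : ℕ) (hm : 1 ≤ m) (hn : 1 ≤ n) (h : Nat.Coprime m n) :
    cn a b (m * n) = cn a b m * cn a b n := by
  rw [cn, cn, cn, ← hC m n _ _ hm hn h (DDl_cgr a b m) (DDl_cgr a b n)]
  congr 1
  ext B
  simp only [Set.mem_setOf_eq, DDl_mul a b m n h]

theorem cn_prod (hC : S_CRT) (hL : S_LP2) (a b : ℤ) (s : Finset ℕ)
    (hs : ∀ p ∈ s, p.Prime ∧ 5 ≤ p ∧ ¬ (p : ℤ) ^ 2 ∣ dsc a b) :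
    (cn a b (∏ p ∈ s, p ^ 2) : ℝ) ≤ ((∏ p ∈ s, p ^ 2 : ℕ) : ℝ) ^ 3 * ∏ p ∈ s, (1 - 1 / (p : ℝ) ^ 2) := by
  induction s using Finset.induction_on with
  | empty =>
    simp only [prod_empty, Nat.cast_one, one_pow, mul_one]
    exact_mod_cast cn_one a b
  | insert p s hp ih =>
    have h1 := hs p (mem_insert_self p s)
    have h2 := ih fun q hq => hs q (mem_insert_of_mem hq)
    obtain ⟨pp, p5, pd⟩ := h1
    have hcop : Nat.Coprime (p ^ 2) (∏ q ∈ s, q ^ 2) := by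
      apply Nat.Coprime.prod_right
      intro q hq
      apply Nat.Coprime.pow
      exact (Nat.coprime_primes pp (hs q (mem_insert_of_mem hq)).1).mpr fun h => hp (h ▸ hq)
    have hpos : 1 ≤ ∏ q ∈ s, q ^ 2 := by
      apply Nat.one_le_iff_ne_zero.mpr
      rw [prod_ne_zero_iff]
      intro q hq
      exact pow_ne_zero _ (hs q (mem_insert_of_mem hq)).1.ne_zero
    have hp1 : 1 ≤ p ^ 2 := Nat.one_le_pow _ _ pp.pos
    rw [prod_insert hp, prod_insert hp, cn_mul hC a b _ _ hp1 hpos hcop]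
    have h3 : (cn a b (p ^ 2) : ℝ) ≤ ((p : ℝ) ^ 2) ^ 3 * (1 - 1 / (p : ℝ) ^ 2) := by
      have h4 := hL p pp p5 a b pd
      have h5 : cn a b (p ^ 2) ≤ p ^ 3 * (p ^ 3 - p) := by
        refine le_trans (le_of_eq ?_) h4
        rw [cn]
        simp only [DDl, Nat.cast_pow]
      have h6 : p ≤ p ^ 3 := Nat.le_self_pow (by norm_num) p
      have h7 : (cn a b (p ^ 2) : ℝ) ≤ (p : ℝ) ^ 3 * ((p : ℝ) ^ 3 - p) := by
        have := (Nat.cast_le (α := ℝ)).mpr h5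
        rwa [Nat.cast_mul, Nat.cast_sub h6, Nat.cast_pow] at this
      have hp0 : (p : ℝ) ≠ 0 := by exact_mod_cast pp.ne_zero
      refine h7.trans (le_of_eq ?_)
      field_simp
    have h8 : (0 : ℝ) ≤ 1 - 1 / (p : ℝ) ^ 2 := by
      have : (1 : ℝ) ≤ (p : ℝ) ^ 2 := by exact_mod_cast hp1
      have : 1 / (p : ℝ) ^ 2 ≤ 1 := by
        rw [div_le_one (by positivity)]
        exact this
      linarith
    push_cast
    calc (cn a b (p ^ 2) : ℝ) * (cn a b (∏ q ∈ s, q ^ 2) : ℝ) ≤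
        (((p : ℝ) ^ 2) ^ 3 * (1 - 1 / (p : ℝ) ^ 2)) *
          (((∏ q ∈ s, q ^ 2 : ℕ) : ℝ) ^ 3 * ∏ q ∈ s, (1 - 1 / (q : ℝ) ^ 2)) := by
          apply mul_le_mul h3 h2 (Nat.cast_nonneg _)
          positivity
      _ = _ := by
          push_cast
          ring

theorem t_LOC (hC : S_CRT) (hP : S_LP2) (h3 : S_L3) (h8 : S_L8) : S_LOC := by
  intro Z hZ a b ha ha3 hAl
  set R : ℕ := ∏ p ∈ (Icc 5 Z).filter Nat.Prime, p ^ 2 with hR
  have hs : ∀ p ∈ (Icc 5 Z).filter Nat.Prime, p.Prime ∧ 5 ≤ p ∧ ¬ (p : ℤ) ^ 2 ∣ dsc a b := by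
    intro p hp
    rw [mem_filter, mem_Icc] at hp
    exact ⟨hp.2, hp.1.1, hAl.2 p hp.2 hp.1.1 hp.1.2⟩
  have hcR := cn_prod hC hP a b _ hs
  rw [← hR] at hcR
  have hR1 : 1 ≤ R := by
    apply Nat.one_le_iff_ne_zero.mpr
    rw [hR, prod_ne_zero_iff]
    intro q hq
    exact pow_ne_zero _ (hs q hq).1.ne_zero
  have hcop : ∀ q : ℕ, q.Prime → q < 5 → Nat.Coprime q R := by
    intro q hq hq5
    rw [hR]
    apply Nat.Coprime.prod_right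
    intro p hp
    apply Nat.Coprime.pow_right
    refine (Nat.coprime_primes hq (hs p hp).1).mpr ?_
    have := (hs p hp).2.1
    omega
  have hc3 : Nat.Coprime 3 R := hcop 3 (by norm_num) (by norm_num)
  have hc8 : Nat.Coprime 8 (3 * R) := by
    apply Nat.Coprime.mul_right (by norm_num)
    have : (8 : ℕ) = 2 ^ 3 := by norm_num
    rw [this]
    exact (hcop 2 (by norm_num) (by norm_num)).pow_left 3
  have hM : MZ Z = 8 * (3 * R) := by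
    rw [MZ, ← hR]
    ring
  have e1 : {B | B ∈ Bo (MZ Z) ∧ (MZ Z : ℤ) ∣ chA B - a ∧ (MZ Z : ℤ) ∣ chB B - b ∧ Sol8 B}.ncard =
      {B | B ∈ Bo 8 ∧ (8 : ℤ) ∣ chA B - a ∧ (8 : ℤ) ∣ chB B - b ∧ Sol8 B}.ncard *
        (cn a b 3 * cn a b R) := by
    rw [← cn_mul hC a b 3 R (by norm_num) hR1 hc3]
    have h := hC 8 (3 * R) (fun B => DDl a b 8 B ∧ Sol8 B) (DDl a b (3 * R)) (by norm_num)
      (by omega) hc8 (fun B B' h => by rw [DDl_cgr a b 8 B B' h, Sol8_cgr B B' h])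
      (DDl_cgr a b (3 * R))
    have e2 : {B | B ∈ Bo (MZ Z) ∧ (MZ Z : ℤ) ∣ chA B - a ∧ (MZ Z : ℤ) ∣ chB B - b ∧ Sol8 B} =
        {B | B ∈ Bo (8 * (3 * R)) ∧ (DDl a b 8 B ∧ Sol8 B) ∧ DDl a b (3 * R) B} := by
      ext B
      rw [hM]
      have h5 := DDl_mul a b 8 (3 * R) hc8 B
      simp only [Set.mem_setOf_eq]
      constructor
      · rintro ⟨k1, k2, k3, k4⟩
        have k5 := h5.mp ⟨k2, k3⟩
        exact ⟨k1, ⟨k5.1, k4⟩, k5.2⟩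
      · rintro ⟨k1, ⟨k2, k4⟩, k3⟩
        have k5 := h5.mpr ⟨k2, k3⟩
        exact ⟨k1, k5.1, k5.2, k4⟩
    rw [e2, h]
    congr 2
    ext B
    simp only [Set.mem_setOf_eq, DDl, Nat.cast_ofNat, and_assoc]
  have k8 := h8 a b ha hAl.1
  have k3 : cn a b 3 ≤ 24 := by
    refine le_trans (le_of_eq ?_) (h3 a b ha3)
    rw [cn]
    simp only [DDl, Nat.cast_ofNat]
  have hf : (Icc 3 Z).filter Nat.Prime = insert 3 ((Icc 5 Z).filter Nat.Prime) := by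
    ext p
    simp only [mem_filter, mem_Icc, mem_insert]
    constructor
    · rintro ⟨⟨h1, h2⟩, h3⟩
      rcases Nat.lt_or_ge p 5 with h4 | h4
      · left
        interval_cases p
        · rfl
        · exact absurd h3 (by norm_num)
      · right
        exact ⟨⟨h4, h2⟩, h3⟩
    · rintro (h1 | ⟨⟨h1, h2⟩, h3⟩)
      · subst h1
        exact ⟨⟨le_refl 3, hZ⟩, by norm_num⟩
      · exact ⟨⟨by omega, h2⟩, h3⟩
  have hn3 : 3 ∉ (Icc 5 Z).filter Nat.Prime := by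
    simp
  rw [e1, hf, prod_insert hn3, hM]
  push_cast
  have hR0 : (0 : ℝ) ≤ (R : ℝ) ^ 3 * ∏ p ∈ (Icc 5 Z).filter Nat.Prime, (1 - 1 / (p : ℝ) ^ 2) :=
    le_trans (Nat.cast_nonneg _) hcR
  have k8' : (({B | B ∈ Bo 8 ∧ (8 : ℤ) ∣ chA B - a ∧ (8 : ℤ) ∣ chB B - b ∧ Sol8 B}.ncard : ℕ) : ℝ) ≤
      256 := by exact_mod_cast k8
  have k3' : (cn a b 3 : ℝ) ≤ 24 := by exact_mod_cast k3
  calc (({B | B ∈ Bo 8 ∧ (8 : ℤ) ∣ chA B - a ∧ (8 : ℤ) ∣ chB B - b ∧ Sol8 B}.ncard : ℕ) : ℝ) *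
      ((cn a b 3 : ℝ) * (cn a b R : ℝ)) ≤
      256 * (24 * ((R : ℝ) ^ 3 * ∏ p ∈ (Icc 5 Z).filter Nat.Prime, (1 - 1 / (p : ℝ) ^ 2))) := by
        apply mul_le_mul k8' _ (by positivity) (by norm_num)
        exact mul_le_mul k3' hcR (Nat.cast_nonneg _) (by norm_num)
    _ = _ := by ring

end Pool.Agent.L0h45.AV
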