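import Pool.Agent.L0h45.AV.Stm4
import Pool.Agent.L0h55.AV.S8S

/-!
# AV: S8Se, the condition at `2` on the tuple (the algebra over `ℚ₂` need not be a field)
-/

set_option autoImplicit false
set_option linter.all false

open Polynomial
open scoped Classical

namespace Pool.Agent.L0h45.AV

open Pool.Agent.N874.PP (Tup chA chB gq tau Ev)
open Pool.Agent.N922.PQ (dsc IsCub JJ Loc2 PL2)
open Pool.Agent.N803.PQ (fp fp_ne PP pl2_iff root_eq bas bas_apply emb emb_gen emb_mk basis_pow)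
open Pool.Agent.L0h55.AV (ck ck_pow emb_ck emb_smul exists_v sol_vec)

section emb

variable {L : Type} [Field L] [CharZero L] {a b : ℤ} {θ : L}

theorem form_eqe (h : IsCub a b θ) (e : Fin 3 → L) (α : L) (k : Fin 3) (v : Fin 3 → ℚ_[2]) :
    ck a b k ((∑ j, v j • emb h (e j)) * (∑ j, v j • emb h (e j)) * emb h α⁻¹) =
      ∑ i, ∑ j, v i * v j * ((h.co k (e i * e j / α) : ℚ) : ℚ_[2]) := by
  rw [Finset.sum_mul_sum, Finset.sum_mul, map_sum]
  refine Finset.sum_congr rfl fun i _ => ?_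
  rw [Finset.sum_mul, map_sum]
  refine Finset.sum_congr rfl fun j _ => ?_
  have e3 : v i • emb h (e i) * v j • emb h (e j) * emb h α⁻¹ =
      (v i * v j) • emb h (e i * e j / α) := by
    rw [smul_mul_smul_comm, Algebra.smul_def, mul_assoc, ← map_mul (emb h), ← map_mul (emb h),
      ← Algebra.smul_def, div_eq_mul_inv]
  rw [e3, map_smul, smul_eq_mul, emb_ck]

end emb

/-- **S8Se** -/
theorem t_S8Se : S_S8Se := by
  intro L _ _ a b θ h α B hα hrel hloc
  obtain ⟨r, s, t, hrst⟩ := h.gen α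
  have hp : aeval θ (C r + C s * X + C t * X ^ 2 : ℚ[X]) = α := by
    simp only [map_add, map_mul, map_pow, aeval_X, aeval_C, eq_ratCast]
    exact hrst.symm
  have h1 := (pl2_iff _).1 (hloc _ hp)
  rw [emb_mk h, hp] at h1
  haveI : Nontrivial (AdjoinRoot (fp a b)) := ⟨⟨1, 0, fun h10 => by
    have h2 := ck_pow a b 0 0
    rw [if_pos rfl] at h2
    have h3 : AdjoinRoot.root (fp a b) ^ ((0 : Fin 3) : ℕ) = 0 := by
      rw [Fin.val_zero, pow_zero, h10]
    rw [h3, map_zero] at h2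
    exact zero_ne_one h2⟩⟩
  have hAi : emb h α * emb h α⁻¹ = 1 := by
    rw [← map_mul, mul_inv_cancel₀ hα, map_one]
  have c0 : ∀ k : Fin 3, k ≠ 0 → ck a b k 1 = 0 := by
    intro k hk
    have h2 := ck_pow a b k 0
    rw [if_neg hk.symm] at h2
    simpa using h2
  have cof : ∀ (k : Fin 3) (x : ℚ_[2]), k ≠ 0 → ck a b k (AdjoinRoot.of (fp a b) x) = 0 := by
    intro k x hk
    have e : AdjoinRoot.of (fp a b) x = x • (1 : AdjoinRoot (fp a b)) := by
      rw [Algebra.smul_def, mul_one]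
      rfl
    rw [e, map_smul, c0 k hk, smul_zero]
  have cr2 : ck a b 2 (AdjoinRoot.root (fp a b)) = 0 := by
    have h2 := ck_pow a b 2 1
    rw [if_neg (by decide)] at h2
    simpa using h2
  have cr1 : ck a b 1 (AdjoinRoot.root (fp a b)) = 1 := by
    have h2 := ck_pow a b 1 1
    rw [if_pos rfl] at h2
    simpa using h2
  have key : ∃ (g : AdjoinRoot (fp a b)) (ε : ℚ_[2]), g ≠ 0 ∧ ck a b 2 (g * g * emb h α⁻¹) = 0 ∧
      ck a b 1 (g * g * emb h α⁻¹) = -ε ^ 2 := by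
    rcases h1 with ⟨g, hg⟩ | ⟨x, y, hy, hxy, g, hg⟩
    · have e1 : g * g * emb h α⁻¹ = 1 := by rw [← sq, ← hg, hAi]
      refine ⟨g, 0, ?_, ?_, ?_⟩
      · rintro rfl
        rw [zero_mul, zero_mul] at e1
        exact zero_ne_one e1
      · rw [e1, c0 2 (by decide)]
      · rw [e1, c0 1 (by decide)]
        ring
    · obtain ⟨ϑ, hϑ⟩ : ∃ ϑ, ϑ = AdjoinRoot.root (fp a b) := ⟨_, rfl⟩
      obtain ⟨ι, hι⟩ : ∃ ι, ι = AdjoinRoot.of (fp a b) := ⟨_, rfl⟩
      have hr := root_eq (a := a) (b := b)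
      rw [← hϑ, ← hι] at hr hg
      have e1 : g * g * emb h α⁻¹ = ι x - ϑ := by
        rw [← sq, ← hg, mul_assoc, hAi, mul_one]
      have hu : (ι x - ϑ) * (ι x ^ 2 + ι x * ϑ + ϑ ^ 2 + ι (a : ℚ_[2])) = ι (y ^ 2) := by
        rw [hxy, map_add, map_add, map_mul, map_pow]
        linear_combination (-1 : AdjoinRoot (fp a b)) * hr
      refine ⟨g, 1, ?_, ?_, ?_⟩
      · rintro rfl
        rw [zero_mul, zero_mul] at e1
        rw [← e1, zero_mul] at hu
        have h5 : ι (y ^ 2) = ι 0 := by rw [← hu, map_zero]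
        have h6 := RingHom.injective ι h5
        exact hy (pow_eq_zero_iff (two_ne_zero) |>.1 h6)
      · rw [e1, map_sub, hι, hϑ, cof 2 x (by decide), cr2, sub_zero]
      · rw [e1, map_sub, hι, hϑ, cof 1 x (by decide), cr1]
        ring
  obtain ⟨g, ε, hg0, hg2, hg1⟩ := key
  obtain ⟨e, hli, h2, h3⟩ := hrel
  obtain ⟨v, rfl⟩ := exists_v h hli g
  rw [form_eqe h e α] at hg2 hg1
  simp only [h2] at hg2
  simp only [h3] at hg1
  refine sol_vec B (v := v) (ε := ε) ?_ hg2 hg1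
  rintro rfl
  apply hg0
  simp

end Pool.Agent.L0h45.AV
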